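import Mathlib
import Pool.Agent.Lib.MP_053343_lc.Defs

/-!
Definitions for MP_f7d510_lc: cardinals, `κ`-trees, cofinal branches and strong Kurepa trees in
the sense of a transitive model `M`.
-/

namespace Pool.Agent.Lib.MP_f7d510_lc

open ZFSet

/-- The axiom of choice in `M`: every set in `M` has a choice function in `M`. -/
def AC (M : ZFSet.{0}) : Prop :=
  ∀ a ∈ M, ∃ f ∈ M, ∀ x ∈ a, x ≠ ∅ → ∃ y ∈ x, ∀ z, pair x z ∈ f ↔ z = y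

/-- `M` contains an injective function from `a` to `b`. -/
def Inj (M a b : ZFSet.{0}) : Prop :=
  ∃ f ∈ M, IsFunc a b f ∧ ∀ x y z, pair x z ∈ f → pair y z ∈ f → x = y

/-- `a` is a cardinal of `M`. -/
def IsCard (M a : ZFSet.{0}) : Prop := a.IsOrdinal ∧ ∀ b ∈ a, ¬ Inj M a b

/-- `l` is a singular cardinal of `M`. -/
def Singular (M l : ZFSet.{0}) : Prop :=
  IsCard M l ∧ omega ⊆ l ∧
    ∃ b ∈ l, ∃ f ∈ M, IsFunc b l f ∧ ∀ x ∈ l, ∃ y z, pair y z ∈ f ∧ x ∈ z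

/-- `k` is the successor cardinal of `l` in `M`. -/
def SuccCard (M l k : ZFSet.{0}) : Prop := IsCard M k ∧ l ∈ k ∧ ∀ a ∈ k, Inj M a l

/-- `T`, a set of functions `a → k` with `a < k` closed under restriction and ordered by
inclusion, is a `k`-tree in `M`: all levels below `k` are nonempty and have size `< k`. -/
def KTree (M k T : ZFSet.{0}) : Prop :=
  (∀ t ∈ T, ∃ a ∈ k, IsFunc a k t ∧ ∀ b ∈ a, ∃ s ∈ T, IsFunc b k s ∧ s ⊆ t) ∧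
    ∀ a ∈ k, ∃ L ∈ M, (∀ t, t ∈ L ↔ t ∈ T ∧ IsFunc a k t) ∧ L ≠ ∅ ∧ ∃ b ∈ k, Inj M L b

/-- `B` is a linearly ordered, downward closed subset of `T` meeting every level. -/
def Branch (k T B : ZFSet.{0}) : Prop :=
  B ⊆ T ∧ (∀ s ∈ B, ∀ t ∈ B, s ⊆ t ∨ t ⊆ s) ∧ (∀ t ∈ B, ∀ s ∈ T, s ⊆ t → s ∈ B) ∧
    ∀ a ∈ k, ∃ t ∈ B, IsFunc a k t

/-- `T` is a strong `k`-Kurepa tree in `M`: the set `X` of cofinal branches has size `> k`, and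
some `F ∈ M` maps `X` onto the set `W` of functions `k → 2` continuously for the cone
topologies. -/
def StrongKurepa (M k T : ZFSet.{0}) : Prop :=
  KTree M k T ∧ ∃ X ∈ M, (∀ B, B ∈ X ↔ B ∈ M ∧ Branch k T B) ∧ ¬ Inj M X k ∧
    ∃ W ∈ M, (∀ g, g ∈ W ↔ g ∈ M ∧ IsFunc k {∅, {∅}} g) ∧
      ∃ F ∈ M, IsFunc X W F ∧ (∀ g ∈ W, ∃ B, pair B g ∈ F) ∧
        ∀ B g, pair B g ∈ F → ∀ a ∈ k, ∀ s ∈ M, IsFunc a {∅, {∅}} s → s ⊆ g →
          ∃ t ∈ B, ∀ B' g', pair B' g' ∈ F → t ∈ B' → s ⊆ g'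

end Pool.Agent.Lib.MP_f7d510_lc
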