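import Mathlib
import Pool.Agent.Lib.MP_053343_lc.Defs
import Pool.Agent.Lib.MP_f7d510_lc.Defs

/-!
Definable predicates in a transitive model, and the passage from a labelled tree to a strong
Kurepa tree inside the model.
-/

namespace Pool.Agent.Lib.MP_f7d510_lc

open ZFSet Pool.Agent.Lib.MP_053343_lc

def cs (x : ZFSet.{0}) (v : ℕ → ZFSet.{0}) : ℕ → ZFSet.{0}
  | 0 => x
  | n + 1 => v n

def env (l : List ZFSet.{0}) : ℕ → ZFSet.{0} := fun i => l.getD i ∅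

theorem env_cons (x : ZFSet) (l : List ZFSet) : env (x :: l) = cs x (env l) := by
  funext i; cases i <;> rfl

/-- Predicates definable in `M`. -/
def Df (M : ZFSet.{0}) (Q : (ℕ → ZFSet.{0}) → Prop) : Prop :=
  ∃ φ, ∀ l, (∀ x ∈ l, x ∈ M) → (Sat M φ l ↔ Q (env l))

variable {M : ZFSet.{0}} (hM : ModelZF M)

include hM

theorem mem_of_mem {x y : ZFSet} (h : x ∈ y) (hy : y ∈ M) : x ∈ M := hM.trans _ hy h

theorem empty_mem : ∅ ∈ M := mem_of_mem hM omega_zero hM.inf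

theorem env_mem {l : List ZFSet} (h : ∀ x ∈ l, x ∈ M) (i : ℕ) : env l i ∈ M := by
  induction l generalizing i with
  | nil => exact empty_mem hM
  | cons a l ih =>
    cases i with
    | zero => exact h a (List.mem_cons_self ..)
    | succ i => exact ih (fun x hx => h x (List.mem_cons_of_mem _ hx)) i

theorem Df.congr {Q Q' : (ℕ → ZFSet) → Prop} (h : Df M Q)
    (e : ∀ v, (∀ i, v i ∈ M) → (Q v ↔ Q' v)) : Df M Q' :=
  h.imp fun _ h l hl => (h l hl).trans (e _ (env_mem hM hl))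

omit hM in
theorem Df.mem (i j : ℕ) : Df M fun v => v i ∈ v j := ⟨.mem i j, fun _ _ => Iff.rfl⟩

omit hM in
theorem Df.eq (i j : ℕ) : Df M fun v => v i = v j := ⟨.eq i j, fun _ _ => Iff.rfl⟩

omit hM in
theorem Df.not {Q : (ℕ → ZFSet) → Prop} (h : Df M Q) : Df M fun v => ¬ Q v :=
  h.elim fun φ h => ⟨.neg φ, fun l hl => not_congr (h l hl)⟩

omit hM in
theorem Df.and {Q Q' : (ℕ → ZFSet) → Prop} (h : Df M Q) (h' : Df M Q') :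
    Df M fun v => Q v ∧ Q' v :=
  h.elim fun φ h => h'.elim fun ψ h' => ⟨.and φ ψ, fun l hl => and_congr (h l hl) (h' l hl)⟩

theorem Df.or {Q Q' : (ℕ → ZFSet) → Prop} (h : Df M Q) (h' : Df M Q') :
    Df M fun v => Q v ∨ Q' v := (h.not.and h'.not).not.congr hM fun _ _ => by tauto

theorem Df.imp {Q Q' : (ℕ → ZFSet) → Prop} (h : Df M Q) (h' : Df M Q') :
    Df M fun v => Q v → Q' v := (h.and h'.not).not.congr hM fun _ _ => by tauto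

theorem Df.iff {Q Q' : (ℕ → ZFSet) → Prop} (h : Df M Q) (h' : Df M Q') :
    Df M fun v => Q v ↔ Q' v := ((h.imp hM h').and (h'.imp hM h)).congr hM fun _ _ => by tauto

omit hM in
theorem Df.ex {Q : (ℕ → ZFSet) → Prop} (h : Df M Q) : Df M fun v => ∃ x ∈ M, Q (cs x v) := by
  obtain ⟨φ, h⟩ := h
  refine ⟨.ex φ, fun l hl => exists_congr fun x => and_congr_right fun hx => ?_⟩
  rw [← env_cons]
  refine h _ fun y hy => ?_
  rcases List.mem_cons.1 hy with rfl | hy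
  exacts [hx, hl y hy]

theorem Df.bex (i : ℕ) {Q : (ℕ → ZFSet) → Prop} (h : Df M Q) :
    Df M fun v => ∃ x ∈ v i, Q (cs x v) :=
  ((Df.mem 0 (i + 1)).and h).ex.congr hM fun _ hv =>
    ⟨fun ⟨x, _, h⟩ => ⟨x, h⟩, fun ⟨x, h⟩ => ⟨x, mem_of_mem hM h.1 (hv i), h⟩⟩

theorem Df.ball (i : ℕ) {Q : (ℕ → ZFSet) → Prop} (h : Df M Q) :
    Df M fun v => ∀ x ∈ v i, Q (cs x v) :=
  (h.not.bex hM i).not.congr hM fun _ _ => by simp

theorem Df.sep {Q : (ℕ → ZFSet) → Prop} (h : Df M Q) {l : List ZFSet} (hl : ∀ x ∈ l, x ∈ M)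
    {a : ZFSet} (ha : a ∈ M) : ∃ b ∈ M, ∀ x, x ∈ b ↔ x ∈ a ∧ Q (cs x (env l)) := by
  obtain ⟨φ, h⟩ := h
  refine ⟨_, hM.sep φ l hl a ha, fun x => ?_⟩
  rw [mem_sep]
  refine and_congr_right fun hx => ?_
  rw [← env_cons]
  refine h _ fun y hy => ?_
  rcases List.mem_cons.1 hy with rfl | hy
  exacts [mem_of_mem hM hx ha, hl y hy]

theorem df_sub (i j : ℕ) : Df M fun v => v i ⊆ v j :=
  ((Df.mem 0 (j + 1)).ball hM i).congr hM fun _ _ => Iff.rfl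

theorem df_upair (i j k : ℕ) : Df M fun v => v i = {v j, v k} :=
  (((((Df.eq 0 (j + 1)).or hM (Df.eq 0 (k + 1))).ball hM i).and (Df.mem j i)).and
    (Df.mem k i)).congr hM fun v _ => by
      constructor
      · rintro ⟨⟨h1, h2⟩, h3⟩
        ext x
        rw [mem_pair]
        exact ⟨h1 x, by rintro (rfl | rfl) <;> assumption⟩
      · intro h
        simp [h, cs]

theorem df_pair (i j k : ℕ) : Df M fun v => v i = pair (v j) (v k) :=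
  ((((df_upair hM 1 (j + 2) (j + 2)).and (df_upair hM 0 (j + 2) (k + 2))).and
    (df_upair hM (i + 2) 1 0)).bex hM (i + 1) |>.bex hM i).congr hM fun v _ => by
      constructor
      · rintro ⟨a, -, b, -, ⟨h1, h2⟩, h3⟩
        simp only [cs] at h1 h2 h3
        rw [h3, h1, h2, pair_eq_singleton]
        rfl
      · intro h
        refine ⟨{v j}, by simp [h, pair], {v j, v k}, by simp [h, pair, cs], ⟨?_, rfl⟩, h⟩
        simp [cs]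

theorem df_pmem (i j k : ℕ) : Df M fun v => pair (v i) (v j) ∈ v k :=
  ((df_pair hM 0 (i + 1) (j + 1)).bex hM k).congr hM fun v _ => by simp [cs]

omit hM in
theorem isFunc_iff {a b f : ZFSet} : IsFunc a b f ↔ (∀ z ∈ f, ∃ x ∈ a, ∃ y ∈ b, z = pair x y) ∧
    ∀ x ∈ a, ∃ y ∈ b, pair x y ∈ f ∧ ∀ y' ∈ b, pair x y' ∈ f → y' = y := by
  constructor
  · rintro ⟨h1, h2⟩
    refine ⟨fun z hz => mem_prod.1 (h1 hz), fun x hx => ?_⟩
    obtain ⟨y, h3, h4⟩ := h2 x hx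
    exact ⟨y, (pair_mem_prod.1 (h1 h3)).2, h3, fun y' _ => h4 y'⟩
  · rintro ⟨h1, h2⟩
    have h0 : f ⊆ prod a b := fun z hz => mem_prod.2 (h1 z hz)
    refine ⟨h0, fun x hx => ?_⟩
    obtain ⟨y, -, h3, h4⟩ := h2 x hx
    exact ⟨y, h3, fun y' h => h4 y' (pair_mem_prod.1 (h0 h)).2 h⟩

theorem df_func (i j k : ℕ) : Df M fun v => IsFunc (v i) (v j) (v k) :=
  (((((df_pair hM 2 1 0).bex hM (j + 2)).bex hM (i + 1)).ball hM k).and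
    ((((df_pmem hM 1 0 (k + 2)).and ((((df_pmem hM 2 0 (k + 3)).imp hM (Df.eq 0 1))).ball hM
      (j + 2))).bex hM (j + 1)).ball hM i)).congr hM fun _ _ => isFunc_iff.symm

theorem df_branch (i j k : ℕ) : Df M fun v => Branch (v i) (v j) (v k) :=
  ((df_sub hM k j).and (((((df_sub hM 1 0).or hM (df_sub hM 0 1)).ball hM (k + 1)).ball hM k).and
    ((((((df_sub hM 0 1).imp hM (Df.mem 0 (k + 2))).ball hM (j + 1)).ball hM k)).and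
      (((df_func hM 1 (i + 2) 0).bex hM (k + 1)).ball hM i)))).congr hM fun _ _ => Iff.rfl

/-- Some node of `B` has at `b` a value related by `D` to `z`. -/
def Hit (k B D b z : ZFSet.{0}) : Prop := ∃ t ∈ B, ∃ c ∈ k, pair b c ∈ t ∧ pair c z ∈ D

theorem df_hit (k B D b z : ℕ) : Df M fun v => Hit (v k) (v B) (v D) (v b) (v z) :=
  ((((df_pmem hM (b + 2) 0 1).and (df_pmem hM 0 (z + 2) (D + 2))).bex hM (k + 1)).bex hM B).congr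
    hM fun _ _ => Iff.rfl

def One (k B D0 D1 z : ZFSet.{0}) : Prop :=
  ∃ b ∈ k, Hit k B D1 b z ∧ ∀ b' ∈ b, ¬ Hit k B D0 b' z

theorem df_one (k B D0 D1 z : ℕ) : Df M fun v => One (v k) (v B) (v D0) (v D1) (v z) :=
  (((df_hit hM (k + 1) (B + 1) (D1 + 1) 0 (z + 1)).and
    ((df_hit hM (k + 2) (B + 2) (D0 + 2) 0 (z + 2)).not.ball hM 0)).bex hM k).congr hM
      fun _ _ => Iff.rfl

theorem pair_mem {x y : ZFSet} (hx : x ∈ M) (hy : y ∈ M) : pair x y ∈ M := by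
  have h1 := hM.pair x hx x hx
  rw [pair_eq_singleton] at h1
  exact hM.pair _ h1 _ (hM.pair x hx y hy)

theorem exists_pairs {X Y : ZFSet} (hX : X ∈ M) (hY : Y ∈ M) :
    ∃ Z ∈ M, ∀ x ∈ X, ∀ y ∈ Y, pair x y ∈ Z := by
  have h1 := hM.union _ (hM.pair X hX Y hY)
  obtain ⟨P, a1, a2⟩ := hM.power _ h1
  obtain ⟨Z, b1, b2⟩ := hM.power _ a1
  refine ⟨Z, b1, fun x hx y hy => ?_⟩
  have c1 := mem_of_mem hM hx hX
  have c2 := mem_of_mem hM hy hY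
  refine (b2 _ (pair_mem hM c1 c2)).2 fun u hu => ?_
  refine (a2 _ (mem_of_mem hM hu (pair_mem hM c1 c2))).2 fun w hw => ?_
  simp only [pair, mem_pair] at hu
  rw [mem_sUnion]
  rcases hu with rfl | rfl
  · rw [mem_singleton] at hw
    exact ⟨X, by simp, hw ▸ hx⟩
  · rcases mem_pair.1 hw with rfl | rfl
    exacts [⟨X, by simp, hx⟩, ⟨Y, by simp, hy⟩]

theorem sing_mem : ({∅} : ZFSet) ∈ M := by
  have := hM.pair _ (empty_mem hM) _ (empty_mem hM)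
  rwa [pair_eq_singleton] at this

theorem two_mem : ({∅, {∅}} : ZFSet) ∈ M := hM.pair _ (empty_mem hM) _ (sing_mem hM)

omit hM in
theorem sing_ne : ({∅} : ZFSet.{0}) ≠ ∅ := fun h => by
  have : (∅ : ZFSet.{0}) ∈ ({∅} : ZFSet.{0}) := mem_singleton.2 rfl
  rw [h] at this
  exact notMem_empty _ this

omit hM in
theorem func_sub {a b s g : ZFSet.{0}} (hs : IsFunc a {∅, {∅}} s) (hg : IsFunc b {∅, {∅}} g)
    (hab : a ⊆ b) (h : ∀ z ∈ a, pair z {∅} ∈ s ↔ pair z {∅} ∈ g) : s ⊆ g := by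
  intro u hu
  obtain ⟨z, hz, i, hi, rfl⟩ := mem_prod.1 (hs.1 hu)
  rcases mem_pair.1 hi with rfl | rfl
  · obtain ⟨y, h1, -⟩ := hg.2 z (hab hz)
    rcases mem_pair.1 (pair_mem_prod.1 (hg.1 h1)).2 with rfl | rfl
    · exact h1
    · exact (sing_ne ((hs.2 z hz).unique ((h z hz).2 h1) hu)).elim
  · exact (h z hz).1 hu

theorem exists_char {k : ZFSet} (hk : k ∈ M) {Q : (ℕ → ZFSet) → Prop} (h : Df M Q)
    {l : List ZFSet} (hl : ∀ x ∈ l, x ∈ M) :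
    ∃ g ∈ M, IsFunc k {∅, {∅}} g ∧ ∀ z ∈ k, pair z {∅} ∈ g ↔ Q (cs z (env l)) := by
  obtain ⟨S, s1, s2⟩ := h.sep hM hl hk
  obtain ⟨Z, z1, z2⟩ := exists_pairs hM hk (two_mem hM)
  obtain ⟨g, g1, g2⟩ := (((((df_pair hM 1 0 3).and (Df.mem 0 5)).or hM
    ((df_pair hM 1 0 4).and (Df.mem 0 5).not))).bex hM 1).sep hM
      (l := [k, {∅}, ∅, S]) (by simp [hk, s1, empty_mem hM, sing_mem hM]) z1
  have g3 : ∀ u, u ∈ g ↔ ∃ z ∈ k, u = pair z {∅} ∧ z ∈ S ∨ u = pair z ∅ ∧ z ∉ S := by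
    intro u
    refine (g2 u).trans (and_iff_right_of_imp ?_)
    rintro ⟨z, hz, ⟨h, -⟩ | ⟨h, -⟩⟩
    · exact (show u = pair z {∅} from h) ▸ z2 z hz _ (by simp)
    · exact (show u = pair z ∅ from h) ▸ z2 z hz _ (by simp)
  refine ⟨g, g1, ⟨fun u hu => ?_, fun z hz => ?_⟩, fun z hz => ?_⟩
  · obtain ⟨z, hz, ⟨rfl, -⟩ | ⟨rfl, -⟩⟩ := (g3 u).1 hu <;>
      exact pair_mem_prod.2 ⟨hz, by simp⟩
  · by_cases h1 : z ∈ S
    · refine ⟨{∅}, (g3 _).2 ⟨z, hz, Or.inl ⟨rfl, h1⟩⟩, fun y hy => ?_⟩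
      obtain ⟨z', -, ⟨h, -⟩ | ⟨h, h'⟩⟩ := (g3 _).1 hy
      · exact (pair_inj.1 h).2
      · exact (h' ((pair_inj.1 h).1 ▸ h1)).elim
    · refine ⟨∅, (g3 _).2 ⟨z, hz, Or.inr ⟨rfl, h1⟩⟩, fun y hy => ?_⟩
      obtain ⟨z', -, ⟨h, h'⟩ | ⟨h, -⟩⟩ := (g3 _).1 hy
      · exact (h1 ((pair_inj.1 h).1 ▸ h')).elim
      · exact (pair_inj.1 h).2
  · rw [← and_iff_right hz (b := Q _), ← s2, g3]
    constructor
    · rintro ⟨z', -, ⟨h, h'⟩ | ⟨h, -⟩⟩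
      · exact (pair_inj.1 h).1 ▸ h'
      · exact (sing_ne (pair_inj.1 h).2).elim
    · exact fun h => ⟨z, hz, Or.inl ⟨rfl, h⟩⟩

omit hM in
theorem hit_iff {k T B t a D b z : ZFSet} (hT : ∀ s ∈ T, ∃ a ∈ k, IsFunc a k s)
    (hB : Branch k T B) (ht : t ∈ B) (ha : IsFunc a k t) (hb : b ∈ a) :
    Hit k B D b z ↔ ∃ c ∈ k, pair b c ∈ t ∧ pair c z ∈ D := by
  refine ⟨?_, fun h => ⟨t, ht, h⟩⟩
  rintro ⟨s, hs, c, hc, h1, h2⟩
  refine ⟨c, hc, ?_, h2⟩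
  rcases hB.2.1 s hs t ht with h | h
  · exact h h1
  · obtain ⟨a', -, h3⟩ := hT s (hB.1 hs)
    obtain ⟨c', h4, -⟩ := ha.2 b hb
    rwa [(h3.2 b (pair_mem_prod.1 (h3.1 h1)).1).unique h1 (h h4)]

omit hM in
theorem one_transfer {k T B B' t a D0 D1 z : ZFSet} (hk : k.IsOrdinal)
    (hT : ∀ s ∈ T, ∃ a ∈ k, IsFunc a k s) (hB : Branch k T B) (hB' : Branch k T B') (ht : t ∈ B)
    (ht' : t ∈ B') (hak : a ∈ k) (ha : IsFunc a k t)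
    (h0 : ∃ b ∈ a, Hit k B D0 b z ∨ Hit k B D1 b z) (h : One k B D0 D1 z) : One k B' D0 D1 z := by
  have e : ∀ D, ∀ b ∈ a, Hit k B D b z ↔ Hit k B' D b z := fun D b hb =>
    (hit_iff hT hB ht ha hb).trans (hit_iff hT hB' ht' ha hb).symm
  have key : ∀ b ∈ a, Hit k B D1 b z → (∀ b' ∈ b, ¬ Hit k B D0 b' z) → One k B' D0 D1 z :=
    fun b hb h1 h2 => ⟨b, hk.mem_trans hb hak, (e _ b hb).1 h1, fun b' hb' h3 =>
      h2 b' hb' ((e _ b' ((hk.mem hak).mem_trans hb' hb)).2 h3)⟩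
  obtain ⟨b, hb, h1, h2⟩ := h
  rcases (hk.mem hb).mem_or_subset (hk.mem hak) with h3 | h3
  · exact key b h3 h1 h2
  · obtain ⟨b0, h4, h5 | h5⟩ := h0
    · exact (h2 b0 (h3 h4) h5).elim
    · exact key b0 h4 h5 fun b' hb' => h2 b' ((hk.mem hb).mem_trans hb' (h3 h4))

theorem strong_of_labels {k T D0 D1 : ZFSet} (hkM : k ∈ M) (hTM : T ∈ M) (h0M : D0 ∈ M)
    (h1M : D1 ∈ M) (hk : k.IsOrdinal) (hT : KTree M k T)
    (H1 : ∀ B ∈ M, Branch k T B → ∀ a ∈ k, ∃ a' ∈ k, ∀ z ∈ a, ∃ b ∈ a',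
      Hit k B D0 b z ∨ Hit k B D1 b z)
    (H2 : ∀ g ∈ M, ∃ B ∈ M, Branch k T B ∧ ∀ z ∈ k, ∀ b,
      (Hit k B D1 b z → pair z {∅} ∈ g) ∧ (Hit k B D0 b z → pair z {∅} ∉ g))
    (hlim : ∀ a ∈ k, ∃ b ∈ k, a ∈ b) :
    StrongKurepa M k T := by
  have hT' : ∀ s ∈ T, ∃ a ∈ k, IsFunc a k s := fun s hs =>
    (hT.1 s hs).imp fun _ h => ⟨h.1, h.2.1⟩
  obtain ⟨PT, p1, p2⟩ := hM.power T hTM
  obtain ⟨X, x1, x2⟩ := (df_branch hM 1 2 0).sep hM (l := [k, T]) (by simp [hkM, hTM]) p1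
  have x3 : ∀ B, B ∈ X ↔ B ∈ M ∧ Branch k T B := fun B => (x2 B).trans
    ⟨fun h => ⟨mem_of_mem hM h.1 p1, h.2⟩, fun h => ⟨(p2 B h.1).2 h.2.1, h.2⟩⟩
  obtain ⟨Z, z1, z2⟩ := exists_pairs hM hkM (two_mem hM)
  obtain ⟨PZ, q1, q2⟩ := hM.power Z z1
  obtain ⟨W, w1, w2⟩ := (df_func hM 1 2 0).sep hM (l := [k, {∅, {∅}}])
    (by simp [hkM, two_mem hM]) q1
  have w3 : ∀ g, g ∈ W ↔ g ∈ M ∧ IsFunc k {∅, {∅}} g := fun g => (w2 g).trans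
    ⟨fun h => ⟨mem_of_mem hM h.1 q1, h.2⟩, fun h => ⟨(q2 g h.1).2 fun u hu => by
      obtain ⟨a, ha, b, hb, rfl⟩ := mem_prod.1 (h.2.1 hu)
      exact z2 a ha b hb, h.2⟩⟩
  obtain ⟨Y, y1, y2⟩ := exists_pairs hM x1 w1
  obtain ⟨F, f1, f2⟩ := ((((df_pair hM 2 1 0).and (((df_pmem hM 0 9 1).iff hM
    (df_one hM 6 2 7 8 0)).ball hM 5)).bex hM 3).bex hM 1).sep hM
      (l := [X, W, k, D0, D1, {∅}]) (by simp [x1, w1, hkM, h0M, h1M, sing_mem hM]) y1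
  have f3 : ∀ u, u ∈ F ↔ ∃ B ∈ X, ∃ g ∈ W, u = pair B g ∧
      ∀ z ∈ k, pair z {∅} ∈ g ↔ One k B D0 D1 z := by
    intro u
    refine (f2 u).trans (and_iff_right_of_imp ?_)
    rintro ⟨B, hB, g, hg, h, -⟩
    exact (show u = pair B g from h) ▸ y2 B hB g hg
  have f4 : ∀ B g, pair B g ∈ F ↔ B ∈ X ∧ g ∈ W ∧ ∀ z ∈ k, pair z {∅} ∈ g ↔ One k B D0 D1 z := by
    intro B g
    rw [f3]
    constructor
    · rintro ⟨B', hB, g', hg, h, h'⟩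
      obtain ⟨rfl, rfl⟩ := pair_inj.1 h
      exact ⟨hB, hg, h'⟩
    · exact fun ⟨a, b, c⟩ => ⟨B, a, g, b, rfl, c⟩
  have f5 : IsFunc X W F := by
    refine ⟨fun u hu => ?_, fun B hB => ?_⟩
    · obtain ⟨B, hB, g, hg, rfl, -⟩ := (f3 u).1 hu
      exact pair_mem_prod.2 ⟨hB, hg⟩
    · obtain ⟨g, g1, g2, g3⟩ := exists_char hM hkM (df_one hM 1 2 3 4 0) (l := [k, B, D0, D1])
        (by simp [hkM, h0M, h1M, ((x3 B).1 hB).1])
      refine ⟨g, (f4 B g).2 ⟨hB, (w3 g).2 ⟨g1, g2⟩, g3⟩, fun g' hg' => ?_⟩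
      obtain ⟨-, a1, a2⟩ := (f4 B g').1 hg'
      have a3 := ((w3 g').1 a1).2
      have a4 : ∀ z ∈ k, pair z {∅} ∈ g' ↔ pair z {∅} ∈ g := fun z hz =>
        (a2 z hz).trans (g3 z hz).symm
      ext u
      exact ⟨fun h => func_sub a3 g2 (fun _ h => h) a4 h,
        fun h => func_sub g2 a3 (fun _ h => h) (fun z hz => (a4 z hz).symm) h⟩
  have f6 : ∀ g ∈ W, ∃ B, pair B g ∈ F := by
    intro g hg
    obtain ⟨B, b1, b2, b3⟩ := H2 g ((w3 g).1 hg).1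
    refine ⟨B, (f4 B g).2 ⟨(x3 B).2 ⟨b1, b2⟩, hg, fun z hz => ⟨fun h => ?_, ?_⟩⟩⟩
    · obtain ⟨a, a1, a2⟩ := hlim z hz
      obtain ⟨a', a3, a4⟩ := H1 B b1 b2 a a1
      obtain ⟨b, c1, c2 | c2⟩ := a4 z a2
      · exact ((b3 z hz b).2 c2 h).elim
      · exact ⟨b, hk.mem_trans c1 a3, c2, fun b' _ h' => (b3 z hz b').2 h' h⟩
    · rintro ⟨b, -, h, -⟩
      exact (b3 z hz b).1 h
  refine ⟨hT, X, x1, x3, ?_, W, w1, w3, F, f1, f5, f6, ?_⟩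
  · rintro ⟨h, h1, h2, h3⟩
    obtain ⟨g, g1, g2, g3⟩ := exists_char hM hkM
      ((((((df_pmem hM 1 2 5).and (df_pmem hM 1 0 6)).and (df_pmem hM 2 7 0)).bex hM 3).bex
        hM 1).not) (l := [X, W, h, F, {∅}]) (by simp [x1, w1, h1, f1, sing_mem hM])
    have g4 : ∀ z ∈ k, pair z {∅} ∈ g ↔ ¬ ∃ B ∈ X, ∃ g' ∈ W,
        (pair B z ∈ h ∧ pair B g' ∈ F) ∧ pair z {∅} ∈ g' := g3
    have hg := (w3 g).2 ⟨g1, g2⟩
    obtain ⟨B, hB⟩ := f6 g hg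
    have hBX := ((f4 B g).1 hB).1
    obtain ⟨z, hz, -⟩ := h2.2 B hBX
    have hzk := (pair_mem_prod.1 (h2.1 hz)).2
    by_cases hc : pair z {∅} ∈ g
    · exact (g4 z hzk).1 hc ⟨B, hBX, g, hg, ⟨hz, hB⟩, hc⟩
    · refine hc ((g4 z hzk).2 ?_)
      rintro ⟨B', -, g', -, ⟨a1, a2⟩, a3⟩
      obtain rfl := h3 _ _ _ a1 hz
      exact hc ((f5.2 B' hBX).unique a2 hB ▸ a3)
  · intro B g hBg a ha s _ s1 s2
    obtain ⟨b1, b2, b3⟩ := (f4 B g).1 hBg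
    obtain ⟨b4, b5⟩ := (x3 B).1 b1
    obtain ⟨a', a1, a2⟩ := H1 B b4 b5 a ha
    obtain ⟨t, t1, t2⟩ := b5.2.2.2 a' a1
    refine ⟨t, t1, fun B' g' h' t3 => ?_⟩
    obtain ⟨c1, c2, c3⟩ := (f4 B' g').1 h'
    have c4 := ((x3 B').1 c1).2
    refine func_sub s1 ((w3 g').1 c2).2 (hk.subset_of_mem ha) fun z hz => ?_
    have hzk := hk.mem_trans hz ha
    have d1 : pair z {∅} ∈ s ↔ pair z {∅} ∈ g := by
      refine ⟨fun h => s2 h, fun h => ?_⟩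
      obtain ⟨y, e1, -⟩ := s1.2 z hz
      rwa [(((w3 g).1 b2).2.2 z hzk).unique h (s2 e1)]
    rw [d1, b3 z hzk, c3 z hzk]
    refine ⟨one_transfer hk hT' b5 c4 t1 t3 a1 t2 (a2 z hz),
      one_transfer hk hT' c4 b5 t3 t1 a1 t2 ?_⟩
    obtain ⟨b, e1, e2⟩ := a2 z hz
    refine ⟨b, e1, ?_⟩
    rwa [hit_iff hT' c4 t3 t2 e1, hit_iff hT' c4 t3 t2 e1, ← hit_iff hT' b5 t1 t2 e1,
      ← hit_iff hT' b5 t1 t2 e1]

end Pool.Agent.Lib.MP_f7d510_lc
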