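import Mathlib

/-!
The well-order `K` of type `ℵ_{ω+1}` and the cardinal arithmetic used by the forcing.
-/

namespace Pool.Agent.Lib.MP_f7d510_lc

open Cardinal Set Classical

noncomputable def lam : Cardinal.{0} := ℵ_ Ordinal.omega0

theorem lam_inf : ℵ₀ ≤ lam := aleph0_le_aleph _

def K : Type := (Order.succ lam).ord.ToType

noncomputable instance : LinearOrder K := inferInstanceAs (LinearOrder (Order.succ lam).ord.ToType)

instance : WellFoundedLT K := inferInstanceAs (WellFoundedLT (Order.succ lam).ord.ToType)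

theorem mk_K : #K = Order.succ lam := mk_ord_toType _

theorem lam_lt_K : lam < #K := by rw [mk_K]; exact Order.lt_succ _

theorem K_inf : ℵ₀ ≤ #K := lam_inf.trans lam_lt_K.le

/-- The ordinal of an element of `K`. -/
noncomputable def ty (a : K) : Ordinal.{0} :=
  Ordinal.typein (α := (Order.succ lam).ord.ToType) (· < ·) a

theorem ty_lt {a b : K} : ty a < ty b ↔ a < b :=
  Ordinal.typein_lt_typein (α := (Order.succ lam).ord.ToType) (· < ·)

theorem mk_Iio_eq (a : K) : #(Iio a) = (ty a).card := rfl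

theorem exists_ty {o : Ordinal.{0}} (h : o < (Order.succ lam).ord) : ∃ a : K, ty a = o :=
  ⟨Ordinal.ToType.mk ⟨o, h⟩, Ordinal.typein_enum _ _⟩

theorem small (a : K) : #(Iio a) ≤ lam := by
  rw [mk_Iio_eq, ← Order.lt_succ_iff, ← lt_ord]
  exact Ordinal.typein_lt_self _

theorem small_Iic (a : K) : #(Iic a) ≤ lam := by
  rw [← Iio_insert]
  refine mk_insert_le.trans (add_le_of_le lam_inf (small a) ?_)
  exact one_le_aleph0.trans lam_inf

theorem bdd {ι : Type} (h : #ι ≤ lam) (f : ι → K) : ∃ a, ∀ i, f i < a := by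
  by_contra hc
  push Not at hc
  have h1 : (univ : Set K) ⊆ ⋃ i, Iic (f i) := fun a _ => mem_iUnion.2 (hc a)
  have h2 : #(⋃ i, Iic (f i)) ≤ lam := by
    refine (mk_iUnion_le_sum_mk).trans ?_
    refine (sum_le_sum _ (fun _ => lam) fun i => small_Iic _).trans ?_
    rw [sum_const']
    exact mul_le_of_le lam_inf h le_rfl
  have h3 := (mk_le_mk_of_subset h1).trans h2
  rw [mk_univ] at h3
  exact absurd h3 (not_le.2 lam_lt_K)

theorem one_le_lam : 1 ≤ lam := one_le_aleph0.trans lam_inf

instance : NoMaxOrder K :=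
  ⟨fun a => (bdd (ι := Unit) (by simpa using one_le_lam) fun _ => a).imp fun _ h => h ()⟩

instance : Nonempty K := by
  rw [← mk_ne_zero_iff]
  exact (aleph0_pos.trans_le K_inf).ne'

theorem exists_bot : ∃ a : K, ∀ b, a ≤ b := by
  obtain ⟨a, -, h⟩ := (wellFounded_lt (α := K)).has_min univ univ_nonempty
  exact ⟨a, fun b => not_lt.1 (h b trivial)⟩

theorem exists_succ (a : K) : ∃ b, ∀ c, c < b ↔ c ≤ a := by
  obtain ⟨b, hb, h⟩ := (wellFounded_lt (α := K)).has_min {b | a < b} (exists_gt a)
  exact ⟨b, fun c => ⟨fun hc => not_lt.1 fun h' => h c h' hc, fun hc => hc.trans_lt hb⟩⟩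

theorem exists_lub {ι : Type} (h : #ι ≤ lam) (f : ι → K) :
    ∃ a, (∀ i, f i ≤ a) ∧ ∀ b < a, ∃ i, b < f i := by
  obtain ⟨a, ha, hm⟩ := (wellFounded_lt (α := K)).has_min {a | ∀ i, f i ≤ a}
    ((bdd h f).imp fun _ h i => (h i).le)
  refine ⟨a, ha, fun b hb => ?_⟩
  by_contra hc
  push Not at hc
  exact hm b hc hb

noncomputable def k0 : K := exists_bot.choose

theorem k0_le (b : K) : k0 ≤ b := exists_bot.choose_spec b

noncomputable def sc (a : K) : K := (exists_succ a).choose

theorem lt_sc {a c : K} : c < sc a ↔ c ≤ a := (exists_succ a).choose_spec c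

theorem exists_code : Nonempty (K ≃ Option (K × Bool) × Bool) := by
  rw [← Cardinal.eq]
  have := K_inf
  simp only [mk_prod, lift_id, mk_option, mk_bool]
  rw [mul_eq_left this (by exact_mod_cast (natCast_lt_aleph0 (n := 2)).le.trans this) (by simp),
    add_one_eq this,
    mul_eq_left this (by exact_mod_cast (natCast_lt_aleph0 (n := 2)).le.trans this) (by simp)]

noncomputable def code : K ≃ Option (K × Bool) × Bool := exists_code.some

/-- The label carried by a value. -/
noncomputable def dec (c : K) : Option (K × Bool) := (code c).1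

noncomputable def nb (b : Bool) : K := code.symm (none, b)

theorem dec_nb (b : Bool) : dec (nb b) = none := by simp [dec, nb]

theorem nb_ne : nb true ≠ nb false := by simp [nb]

theorem exists_nb (c : K) : ∃ b, nb b ≠ c := by
  by_cases h : nb true = c
  · exact ⟨false, fun h' => nb_ne (h.trans h'.symm)⟩
  · exact ⟨true, h⟩

theorem dec_surj (u : K × Bool) : ∃ c, dec c = some u := ⟨code.symm (some u, true), by simp [dec]⟩

theorem exists_l0 : ∃ l w : K, ∃ f : K → K, #(Iio l) = lam ∧ (∀ a < l, #(Iio a) < lam) ∧ w < l ∧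
    (∀ b < w, f b < l) ∧ ∀ x < l, ∃ b < w, x < f b := by
  have h1 : ∀ c ≤ lam, c.ord < (Order.succ lam).ord := fun c hc =>
    ord_lt_ord.2 (hc.trans_lt (Order.lt_succ _))
  obtain ⟨l, hl⟩ := exists_ty (h1 lam le_rfl)
  obtain ⟨w, hw⟩ := exists_ty (h1 ℵ₀ lam_inf)
  have h2 : ∀ n : ℕ, ℵ_ n < lam := fun n => aleph_lt_aleph.2 (Ordinal.natCast_lt_omega0 n)
  choose c hc using fun n : ℕ => exists_ty (h1 (ℵ_ n) (h2 n).le)
  have h3 : #(Iio w) = #ℕ := by rw [mk_Iio_eq, hw, card_ord, mk_nat]
  obtain ⟨e⟩ := Cardinal.eq.1 h3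
  refine ⟨l, w, fun b => if h : b < w then c (e ⟨b, h⟩) else b, ?_, ?_, ?_, ?_, ?_⟩
  · rw [mk_Iio_eq, hl, card_ord]
  · intro a ha
    rw [mk_Iio_eq, ← lt_ord, ← hl, ty_lt]
    exact ha
  · rw [← ty_lt, hl, hw, ord_lt_ord]
    simpa using h2 0
  · intro b hb
    simp only [dif_pos hb]
    rw [← ty_lt, hl, hc, ord_lt_ord]
    exact h2 _
  · intro x hx
    rw [← ty_lt, hl, lt_ord, lam, aleph_limit Ordinal.isSuccLimit_omega0] at hx
    obtain ⟨⟨o, ho⟩, h⟩ := (lt_ciSup_iff' Cardinal.bddAbove_of_small).1 hx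
    obtain ⟨n, rfl⟩ := Ordinal.lt_omega0.1 ho
    refine ⟨(e.symm n).1, (e.symm n).2, ?_⟩
    have : (e.symm n).1 < w := (e.symm n).2
    simp only [dif_pos this]
    rw [← ty_lt, hc, lt_ord]
    simpa using h

/-- Index set of size `lam`. -/
def Lm : Type := lam.out

theorem mk_Lm : #Lm = lam := mk_out _

/-- Index set of size `2 ^ #K`. -/
def J : Type := K → Bool

theorem mk_J : #J = 2 ^ #K := by simp [J]

theorem K_le_J : #K ≤ #J := by rw [mk_J]; exact (cantor _).le

theorem J_inf : ℵ₀ ≤ #J := K_inf.trans K_le_J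

theorem lam_le_J : lam ≤ #J := lam_lt_K.le.trans K_le_J

theorem J_pow_K : #J ^ #K = #J := by rw [mk_J, ← power_mul, mul_eq_self K_inf]

theorem J_pow_lam : #J ^ lam ≤ #J := by
  refine le_trans (power_le_power_left ?_ lam_lt_K.le) J_pow_K.le
  exact (aleph0_pos.trans_le J_inf).ne'

theorem mk_KK : #(K → K) ≤ #J := by
  rw [← power_def]
  exact (power_le_power_right K_le_J).trans J_pow_K.le

theorem exists_surj {α β : Type} [Nonempty β] (h : #β ≤ #α) : ∃ f : α → β, f.Surjective := by
  obtain ⟨g⟩ := (Cardinal.le_def _ _).1 h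
  exact ⟨Function.invFun g, Function.invFun_surjective g.injective⟩

/-- Closing off under an operation on small sets. -/
theorem exists_closed {X : Type} [Nonempty X] (F : Set X → Set X)
    (hF : ∀ s : Set X, #s ≤ lam → #(F s) ≤ #J) :
    ∃ S : Set X, #S ≤ #J ∧ ∀ s ⊆ S, #s ≤ lam → F s ⊆ S := by
  have hp : ∀ s : Set X, ∃ g : J → X, #s ≤ lam → F s ⊆ range g := by
    intro s
    by_cases hs : #s ≤ lam
    · rcases (F s).eq_empty_or_nonempty with h | h
      · exact ⟨fun _ => Classical.arbitrary X, fun _ => by rw [h]; exact empty_subset _⟩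
      · have := h.to_subtype
        obtain ⟨g, hg⟩ := exists_surj (hF s hs)
        refine ⟨fun j => (g j).1, fun _ x hx => ?_⟩
        obtain ⟨j, hj⟩ := hg ⟨x, hx⟩
        exact ⟨j, by simp [hj]⟩
    · exact ⟨fun _ => Classical.arbitrary X, fun h => (hs h).elim⟩
  choose g hg using hp
  let β : J × Bool → Type := fun a => {_l : Lm // a.2 = true}
  let v : WType β → X := fun w => WType.rec (fun a _ ih => g (range ih) a.1) w
  have hv : ∀ a f, v (WType.mk a f) = g (range fun i => v (f i)) a.1 := fun _ _ => rfl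
  refine ⟨range v, mk_range_le.trans (WType.cardinalMk_le_of_le ?_), ?_⟩
  · refine (sum_le_sum _ (fun _ => #J) fun a => ?_).trans ?_
    · refine le_trans (power_le_power_left (aleph0_pos.trans_le J_inf).ne' ?_) J_pow_lam
      rw [← mk_Lm]
      exact mk_subtype_le _
    · rw [sum_const']
      refine mul_le_of_le J_inf ?_ le_rfl
      simp only [mk_prod, lift_id, mk_bool]
      exact mul_le_of_le J_inf le_rfl
        (by exact_mod_cast (natCast_lt_aleph0 (n := 2)).le.trans J_inf)
  · intro s hs hl x hx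
    obtain ⟨j, rfl⟩ := hg s hl hx
    rcases s.eq_empty_or_nonempty with h | h
    · refine ⟨WType.mk (j, false) fun i => absurd i.2 (by simp), ?_⟩
      rw [hv, h]
      congr 1
      ext y
      simp only [mem_range, mem_empty_iff_false, iff_false, not_exists]
      intro i
      exact absurd i.2 (by simp)
    · have := h.to_subtype
      obtain ⟨e, he⟩ := exists_surj (α := Lm) (β := s) (by rw [mk_Lm]; exact hl)
      choose u hu using fun y : s => hs y.2
      refine ⟨WType.mk (j, true) fun i => u (e i.1), ?_⟩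
      rw [hv]
      congr 1
      ext y
      simp only [mem_range, hu]
      constructor
      · rintro ⟨i, rfl⟩
        exact (e i.1).2
      · intro hy
        obtain ⟨l, hl⟩ := he ⟨y, hy⟩
        exact ⟨⟨l, rfl⟩, by simp [hl]⟩

end Pool.Agent.Lib.MP_f7d510_lc
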