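import Mathlib
import Pool.Agent.Lib.MP_f7d510_lc.Base

/-!
The forcing: small normal trees with promised branches, indexed by codes of nice names.
-/

namespace Pool.Agent.Lib.MP_f7d510_lc

open Cardinal Set Classical

def Agree (a : K) (x y : K → K) : Prop := ∀ b < a, x b = y b

theorem Agree.refl (a : K) (x : K → K) : Agree a x x := fun _ _ => rfl

theorem Agree.symm {a : K} {x y : K → K} (h : Agree a x y) : Agree a y x :=
  fun b hb => (h b hb).symm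

theorem Agree.trans {a : K} {x y z : K → K} (h : Agree a x y) (h' : Agree a y z) :
    Agree a x z := fun b hb => (h b hb).trans (h' b hb)

theorem Agree.mono {a b : K} {x y : K → K} (h : Agree a x y) (hb : b ≤ a) : Agree b x y :=
  fun c hc => h c (hc.trans_le hb)

/-- No labels between `b` and `a`. -/
def Blank (b a : K) (x : K → K) : Prop := ∀ c, b ≤ c → c < a → dec (x c) = none

/-- Codes of families of approximations. -/
inductive I : Type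
  | nil : I
  | mk (s : J → (K × Bool) × K × (Lm → (K → K) × Bool)) (c : J → Lm → I) : I

instance : Nonempty I := ⟨I.nil⟩

/-- Approximations: a height and a set of top nodes, some of them promised to an index. -/
structure Pre : Type where
  ht : K
  S : Set ((K → K) × Option I)

def mkPre (s : K × (Lm → (K → K) × Bool)) (c : Lm → I) : Pre :=
  ⟨s.1, range fun l => ((s.2 l).1, cond (s.2 l).2 (some (c l)) none)⟩

noncomputable def topPre : Pre := ⟨k0, {(fun _ => k0, none)}⟩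

/-- The family coded by an index. -/
noncomputable def A : I → J → (K × Bool) × Pre
  | .nil, _ => ((k0, true), topPre)
  | .mk s c, j => ((s j).1, mkPre (s j).2 (c j))

def Pre.supp (p : Pre) : Set I := {ξ | ∃ y, (y, some ξ) ∈ p.S}

theorem supp_small {p : Pre} (h : #p.S ≤ lam) : #p.supp ≤ lam := by
  have : p.supp ⊆ (fun s : (K → K) × Option I => s.2.getD I.nil) '' p.S := by
    rintro ξ ⟨y, hy⟩
    exact ⟨_, hy, rfl⟩
  exact (mk_le_mk_of_subset this).trans (mk_image_le.trans h)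

theorem A_small (ξ : I) (j : J) : #(A ξ j).2.S ≤ lam := by
  cases ξ with
  | nil => simpa [A, topPre] using one_le_lam
  | mk s c => exact mk_range_le.trans mk_Lm.le

theorem exists_mkPre {p : Pre} (h : #p.S ≤ lam) (hn : p.S.Nonempty) :
    ∃ s c, mkPre s c = p ∧ ∀ l, c l ∈ insert I.nil p.supp := by
  have := hn.to_subtype
  obtain ⟨e, he⟩ := exists_surj (α := Lm) (β := p.S) (by rw [mk_Lm]; exact h)
  have key : ∀ o : Option I, cond o.isSome (some (o.getD I.nil)) none = o := by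
    intro o; cases o <;> rfl
  refine ⟨(p.ht, fun l => ((e l).1.1, (e l).1.2.isSome)), fun l => (e l).1.2.getD I.nil, ?_, ?_⟩
  · cases p with
    | mk a S =>
      simp only [mkPre, key, Pre.mk.injEq, true_and]
      ext s
      constructor
      · rintro ⟨l, rfl⟩
        exact (e l).2
      · intro hs
        obtain ⟨l, hl⟩ := he ⟨s, hs⟩
        exact ⟨l, by simp [hl]⟩
  · intro l
    have h2 := (e l).2
    rcases h1 : (e l).1 with ⟨y, _ | ξ⟩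
    · exact Or.inl (by simp [h1])
    · exact Or.inr ⟨y, by simpa [h1] using h2⟩

theorem exists_idx (f : J → (K × Bool) × Pre) (h : ∀ j, #(f j).2.S ≤ lam)
    (hn : ∀ j, (f j).2.S.Nonempty) : ∃ ξ, ∀ j, A ξ j = f j := by
  choose s c h1 _ using fun j => exists_mkPre (h j) (hn j)
  exact ⟨I.mk (fun j => ((f j).1, s j)) c, fun j => by simp [A, h1]⟩

theorem count_pre {X : Set I} (hX : #X ≤ #J) :
    #{p : Pre | #p.S ≤ lam ∧ p.S.Nonempty ∧ p.supp ⊆ X} ≤ #J := by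
  have h1 : {p : Pre | #p.S ≤ lam ∧ p.S.Nonempty ∧ p.supp ⊆ X} ⊆
      range fun u : (K × (Lm → (K → K) × Bool)) × (Lm → ↥(insert I.nil X)) =>
        mkPre u.1 fun l => (u.2 l).1 := by
    rintro p ⟨a, b, c⟩
    obtain ⟨s, d, e1, e2⟩ := exists_mkPre a b
    exact ⟨(s, fun l => ⟨d l, insert_subset_insert c (e2 l)⟩), e1⟩
  refine (mk_le_mk_of_subset h1).trans (mk_range_le.trans ?_)
  have h2 : ∀ Y : Type, #Y ≤ #J → #(Lm → Y) ≤ #J := fun Y hY => by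
    rw [← power_def, mk_Lm]
    exact (power_le_power_right hY).trans J_pow_lam
  have h3 : ∀ Y Z : Type, #Y ≤ #J → #Z ≤ #J → #(Y × Z) ≤ #J := fun Y Z hY hZ => by
    rw [← mul_def]
    exact mul_le_of_le J_inf hY hZ
  refine h3 _ _ (h3 _ _ K_le_J (h2 _ (h3 _ _ mk_KK ?_))) (h2 _ ?_)
  · simpa using (by exact_mod_cast (natCast_lt_aleph0 (n := 2)).le.trans J_inf : (2 : Cardinal) ≤ #J)
  · exact mk_insert_le.trans (add_le_of_le J_inf hX (one_le_aleph0.trans J_inf))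

/-- End extension keeping all promises. -/
structure Le (q p : Pre) : Prop where
  ht : p.ht ≤ q.ht
  down : ∀ s ∈ q.S, ∃ s' ∈ p.S, Agree p.ht s.1 s'.1
  up : ∀ s' ∈ p.S, ∃ s ∈ q.S, Agree p.ht s.1 s'.1 ∧ (s'.2 = none ∨ s.2 = s'.2)

theorem Le.refl (p : Pre) : Le p p :=
  ⟨le_rfl, fun s hs => ⟨s, hs, .refl _ _⟩, fun s hs => ⟨s, hs, .refl _ _, Or.inr rfl⟩⟩

theorem Le.trans {r q p : Pre} (h : Le r q) (h' : Le q p) : Le r p := by
  refine ⟨h'.ht.trans h.ht, fun s hs => ?_, fun s hs => ?_⟩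
  · obtain ⟨s1, a1, b1⟩ := h.down s hs
    obtain ⟨s2, a2, b2⟩ := h'.down s1 a1
    exact ⟨s2, a2, (b1.mono h'.ht).trans b2⟩
  · obtain ⟨s1, a1, b1, c1⟩ := h'.up s hs
    obtain ⟨s2, a2, b2, c2⟩ := h.up s1 a1
    refine ⟨s2, a2, (b2.mono h'.ht).trans b1, ?_⟩
    rcases c1 with c1 | c1
    · exact Or.inl c1
    · rcases c2 with c2 | c2
      · exact Or.inl (c1 ▸ c2)
      · exact Or.inr (c2.trans c1)

theorem Le.prom {q p : Pre} (h : Le q p) {y : K → K} {ξ : I} (hy : (y, some ξ) ∈ p.S) :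
    ∃ z, (z, some ξ) ∈ q.S ∧ Agree p.ht z y := by
  obtain ⟨⟨z, o⟩, a, b, c | c⟩ := h.up _ hy
  · cases c
  · cases c
    exact ⟨z, a, b⟩

/-- Conditions with support in `X`. -/
structure Cond (X : Set I) (p : Pre) : Prop where
  small : #p.S ≤ lam
  ne : p.S.Nonempty
  supp : p.supp ⊆ X
  fn : ∀ y z ξ, (y, some ξ) ∈ p.S → (z, some ξ) ∈ p.S → Agree p.ht y z
  nrm : ∀ s ∈ p.S, ∀ b, ∃ s' ∈ p.S, Agree b s'.1 s.1 ∧ Blank b p.ht s'.1
  just : ∀ y ξ, (y, some ξ) ∈ p.S → ∀ b < p.ht, ∀ u, dec (y b) = some u →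
    ∃ j, (A ξ j).1 = u ∧ Le p (A ξ j).2

theorem Cond.mono {X Y : Set I} {p : Pre} (h : Cond X p) (hY : p.supp ⊆ Y) : Cond Y p :=
  ⟨h.small, h.ne, hY, h.fn, h.nrm, h.just⟩

def Ch (η ξ : I) : Prop := ∃ j, η ∈ (A ξ j).2.supp

def Closed (X : Set I) : Prop := ∀ ξ ∈ X, ∀ η, Ch η ξ → η ∈ X

def Desc (ξ : I) : Set I := {η | Relation.TransGen Ch η ξ}

theorem closed_desc (ξ : I) : Closed (Desc ξ) := fun _ h _ h' => Relation.TransGen.head h' h

theorem Closed.desc {X : Set I} {ξ : I} (h : Closed X) (hξ : ∀ η, Ch η ξ → η ∈ X) :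
    Desc ξ ⊆ X := by
  intro η hη
  induction hη using Relation.TransGen.head_induction_on with
  | single h1 => exact hξ _ h1
  | head h1 _ ih => exact h _ ih _ h1

def Dn (ξ : I) : Prop := ∀ p, Cond (Desc ξ) p → ∀ z : K,
  ∃ j, (A ξ j).1.1 = z ∧ Cond (Desc ξ) (A ξ j).2 ∧ Le (A ξ j).2 p

def Good : Set I := {ξ | Dn ξ ∧ ∀ η ∈ Desc ξ, Dn η}

theorem closed_good : Closed Good := fun _ h η h' =>
  ⟨h.2 η (Relation.TransGen.single h'), fun ζ hζ => h.2 ζ (Relation.TransGen.tail hζ h')⟩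

/-- Forgetting the promises outside `X`. -/
noncomputable def res (X : Set I) (p : Pre) : Pre :=
  ⟨p.ht, (fun s => (s.1, s.2.filter fun ξ => decide (ξ ∈ X))) '' p.S⟩

theorem mem_res {X : Set I} {p : Pre} {y : K → K} {ξ : I} :
    (y, some ξ) ∈ (res X p).S ↔ (y, some ξ) ∈ p.S ∧ ξ ∈ X := by
  constructor
  · rintro ⟨⟨z, o⟩, a, b⟩
    simp only [Prod.mk.injEq, Option.filter_eq_some_iff, decide_eq_true_eq] at b
    obtain ⟨rfl, rfl, c⟩ := b
    exact ⟨a, c⟩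
  · rintro ⟨a, b⟩
    exact ⟨_, a, by simp [b]⟩

theorem res_le {X : Set I} {p a : Pre} (h : Le p a) (ha : a.supp ⊆ X) : Le (res X p) a := by
  refine ⟨h.ht, ?_, ?_⟩
  · rintro _ ⟨s, hs, rfl⟩
    exact h.down s hs
  · rintro ⟨y, _ | ξ⟩ hy
    · obtain ⟨s, a1, a2, -⟩ := h.up _ hy
      exact ⟨_, ⟨s, a1, rfl⟩, a2, Or.inl rfl⟩
    · obtain ⟨z, a1, a2⟩ := h.prom hy
      exact ⟨_, mem_res.2 ⟨a1, ha ⟨y, hy⟩⟩, a2, Or.inr rfl⟩

theorem Cond.res {X Y : Set I} {p : Pre} (h : Cond Y p) (hX : Closed X) : Cond X (res X p) := by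
  refine ⟨mk_image_le.trans h.small, h.ne.image _, ?_, ?_, ?_, ?_⟩
  · rintro ξ ⟨y, hy⟩
    exact (mem_res.1 hy).2
  · intro y z ξ hy hz
    exact h.fn y z ξ (mem_res.1 hy).1 (mem_res.1 hz).1
  · rintro _ ⟨s, hs, rfl⟩ b
    obtain ⟨s', a1, a2⟩ := h.nrm s hs b
    exact ⟨_, ⟨s', a1, rfl⟩, a2⟩
  · intro y ξ hy b hb u hu
    obtain ⟨j, a1, a2⟩ := h.just y ξ (mem_res.1 hy).1 b hb u hu
    exact ⟨j, a1, res_le a2 fun η hη => hX ξ (mem_res.1 hy).2 η ⟨j, hη⟩⟩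

/-- Amalgamation. -/
theorem amalg {X Y : Set I} {p q : Pre} (hp : Cond Y p) (hq : Cond X q) (hXY : X ⊆ Y)
    (h : Le q (res X p)) : ∃ r, Cond Y r ∧ Le r p ∧ Le r q := by
  have h1 : ∀ ξ : p.supp, ∃ z, (∃ o, (z, o) ∈ q.S) ∧
      (∀ y, (y, some ξ.1) ∈ p.S → Agree p.ht z y) ∧ Blank p.ht q.ht z := by
    rintro ⟨ξ, y, hy⟩
    obtain ⟨s, a1, a2, -⟩ := h.up _ ⟨_, hy, rfl⟩
    obtain ⟨s', b1, b2, b3⟩ := hq.nrm s a1 p.ht
    exact ⟨s'.1, ⟨s'.2, b1⟩, fun y' hy' => (b2.trans a2).trans (hp.fn _ _ _ hy hy'), b3⟩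
  choose z z1 z2 z3 using h1
  let r : Pre := ⟨q.ht, q.S ∪ range fun ξ : {ξ : p.supp // ξ.1 ∉ X} => (z ξ.1, some ξ.1.1)⟩
  have top : ∀ s ∈ r.S, ∃ o, (s.1, o) ∈ q.S := by
    rintro s (hs | ⟨ξ, rfl⟩)
    exacts [⟨s.2, hs⟩, z1 _]
  have rq : Le r q := ⟨le_rfl, fun s hs => (top s hs).elim fun o ho => ⟨_, ho, .refl _ _⟩,
    fun s hs => ⟨s, Or.inl hs, .refl _ _, Or.inr rfl⟩⟩
  have rp : Le r p := by
    refine ⟨h.ht, fun s hs => ?_, ?_⟩
    · obtain ⟨o, ho⟩ := top s hs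
      obtain ⟨_, ⟨s', a1, rfl⟩, a2⟩ := h.down _ ho
      exact ⟨s', a1, a2⟩
    · rintro ⟨y, _ | ξ⟩ hy
      · obtain ⟨s, a1, a2, -⟩ := h.up _ ⟨_, hy, rfl⟩
        exact ⟨s, Or.inl a1, a2, Or.inl rfl⟩
      · by_cases hξ : ξ ∈ X
        · obtain ⟨w, a1, a2⟩ := h.prom (mem_res.2 ⟨hy, hξ⟩)
          exact ⟨_, Or.inl a1, a2, Or.inr rfl⟩
        · exact ⟨_, Or.inr ⟨⟨⟨ξ, y, hy⟩, hξ⟩, rfl⟩, z2 _ y hy, Or.inr rfl⟩
  refine ⟨r, ⟨?_, hq.ne.mono subset_union_left, ?_, ?_, ?_, ?_⟩, rp, rq⟩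
  · refine (mk_union_le _ _).trans (add_le_of_le lam_inf hq.small ?_)
    exact mk_range_le.trans ((mk_subtype_le _).trans (supp_small hp.small))
  · rintro ξ ⟨y, hy | ⟨η, hη⟩⟩
    · exact hXY (hq.supp ⟨y, hy⟩)
    · cases hη
      exact hp.supp η.1.2
  · rintro y w ξ (hy | ⟨η, hη⟩) (hw | ⟨η', hη'⟩)
    · exact hq.fn y w ξ hy hw
    · cases hη'
      exact (η'.2 (hq.supp ⟨y, hy⟩)).elim
    · cases hη
      exact (η.2 (hq.supp ⟨w, hw⟩)).elim
    · simp only [Prod.mk.injEq, Option.some.injEq] at hη hη'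
      have : η.1 = η'.1 := Subtype.ext (hη.2.trans hη'.2.symm)
      rw [← hη.1, ← hη'.1, this]
      exact .refl _ _
  · intro s hs b
    obtain ⟨o, ho⟩ := top s hs
    obtain ⟨s', a1, a2⟩ := hq.nrm _ ho b
    exact ⟨s', Or.inl a1, a2⟩
  · rintro y ξ (hy | ⟨η, hη⟩) b hb u hu
    · obtain ⟨j, a1, a2⟩ := hq.just y ξ hy b hb u hu
      exact ⟨j, a1, rq.trans a2⟩
    · cases hη
      by_cases hb' : b < p.ht
      · obtain ⟨y, hy⟩ := η.1.2
        rw [z2 _ y hy b hb'] at hu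
        obtain ⟨j, a1, a2⟩ := hp.just y _ hy b hb' u hu
        exact ⟨j, a1, rp.trans a2⟩
      · rw [z3 _ b (not_lt.1 hb') hb] at hu
        cases hu

/-- Adding an index to the support. -/
theorem add_idx {Y : Set I} {p : Pre} (hp : Cond Y p) {ξ : I} (hξ : ξ ∈ Y) :
    ∃ r, Cond Y r ∧ Le r p ∧ ξ ∈ r.supp := by
  by_cases h : ξ ∈ p.supp
  · exact ⟨p, hp, .refl p, h⟩
  obtain ⟨s0, h0⟩ := hp.ne
  obtain ⟨s, a1, -, a2⟩ := hp.nrm s0 h0 k0
  let r : Pre := ⟨p.ht, insert (s.1, some ξ) p.S⟩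
  have top : ∀ t ∈ r.S, ∃ o, (t.1, o) ∈ p.S := by
    rintro t (rfl | ht)
    exacts [⟨s.2, a1⟩, ⟨t.2, ht⟩]
  have rp : Le r p := ⟨le_rfl, fun s hs => (top s hs).elim fun o ho => ⟨_, ho, .refl _ _⟩,
    fun s hs => ⟨s, Or.inr hs, .refl _ _, Or.inr rfl⟩⟩
  refine ⟨r, ⟨?_, insert_nonempty _ _, ?_, ?_, ?_, ?_⟩, rp, s.1, Or.inl rfl⟩
  · exact mk_insert_le.trans (add_le_of_le lam_inf hp.small one_le_lam)
  · rintro η ⟨y, hy | hy⟩
    · cases hy
      exact hξ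
    · exact hp.supp ⟨y, hy⟩
  · rintro y w η (hy | hy) (hw | hw)
    · cases hy
      cases hw
      exact .refl _ _
    · cases hy
      exact (h ⟨w, hw⟩).elim
    · cases hw
      exact (h ⟨y, hy⟩).elim
    · exact hp.fn y w η hy hw
  · intro t ht b
    obtain ⟨o, ho⟩ := top t ht
    obtain ⟨s', b1, b2⟩ := hp.nrm _ ho b
    exact ⟨s', Or.inr b1, b2⟩
  · rintro y η (hy | hy) b hb u hu
    · cases hy
      rw [a2 b (k0_le b) hb] at hu
      cases hu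
    · obtain ⟨j, b1, b2⟩ := hp.just y η hy b hb u hu
      exact ⟨j, b1, rp.trans b2⟩

theorem agree_update {a b : K} (h : b ≤ a) (x : K → K) (c : K) :
    Agree b (Function.update x a c) x := fun _ hd => Function.update_of_ne (hd.trans_le h).ne _ _

/-- Adding one level. -/
theorem ext1 {Y : Set I} {p : Pre} (hp : Cond Y p) (v : I → K)
    (hv : ∀ ξ u, dec (v ξ) = some u → ∃ j, (A ξ j).1 = u ∧ Le p (A ξ j).2) :
    ∃ r, Cond Y r ∧ Le r p ∧ r.ht = sc p.ht ∧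
      (∀ s ∈ p.S, ∀ b, (Function.update s.1 p.ht (nb b), none) ∈ r.S) ∧
      ∀ y ξ, (y, some ξ) ∈ p.S → (Function.update y p.ht (v ξ), some ξ) ∈ r.S := by
  let r : Pre := ⟨sc p.ht,
    (range fun u : p.S × Bool => (Function.update u.1.1.1 p.ht (nb u.2), none)) ∪
      (fun s => (Function.update s.1 p.ht (v (s.2.getD I.nil)), s.2)) '' p.S⟩
  have top : ∀ t ∈ r.S, ∃ s ∈ p.S, ∃ c, t.1 = Function.update s.1 p.ht c := by
    rintro t (⟨u, rfl⟩ | ⟨s, hs, rfl⟩)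
    exacts [⟨_, u.1.2, _, rfl⟩, ⟨s, hs, _, rfl⟩]
  have prom : ∀ y ξ, (y, some ξ) ∈ r.S →
      ∃ w, (w, some ξ) ∈ p.S ∧ y = Function.update w p.ht (v ξ) := by
    rintro y ξ (⟨u, hu⟩ | ⟨⟨w, o⟩, hs, h⟩)
    · cases hu
    · cases h
      exact ⟨w, hs, rfl⟩
  have hlt : p.ht < sc p.ht := lt_sc.2 le_rfl
  have rp : Le r p := by
    refine ⟨hlt.le, fun t ht => ?_, fun s hs => ⟨_, Or.inr ⟨s, hs, rfl⟩, ?_, Or.inr rfl⟩⟩
    · obtain ⟨s, hs, c, e⟩ := top t ht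
      exact ⟨s, hs, e ▸ agree_update le_rfl _ _⟩
    · exact agree_update le_rfl _ _
  refine ⟨r, ⟨?_, (hp.ne.image _).mono subset_union_right, ?_, ?_, ?_, ?_⟩, rp, rfl,
    fun s hs b => Or.inl ⟨(⟨s, hs⟩, b), rfl⟩, fun y ξ hy => Or.inr ⟨_, hy, rfl⟩⟩
  · refine (mk_union_le _ _).trans (add_le_of_le lam_inf ?_ (mk_image_le.trans hp.small))
    refine mk_range_le.trans ?_
    rw [← mul_def]
    refine mul_le_of_le lam_inf hp.small ?_
    simpa using (by exact_mod_cast (natCast_lt_aleph0 (n := 2)).le.trans lam_inf :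
      (2 : Cardinal) ≤ lam)
  · rintro ξ ⟨y, hy⟩
    obtain ⟨w, hw, -⟩ := prom y ξ hy
    exact hp.supp ⟨w, hw⟩
  · intro y z ξ hy hz b hb
    obtain ⟨w, hw, rfl⟩ := prom y ξ hy
    obtain ⟨w', hw', rfl⟩ := prom z ξ hz
    rcases (lt_sc.1 hb).lt_or_eq with h | rfl
    · rw [Function.update_of_ne h.ne, Function.update_of_ne h.ne]
      exact hp.fn _ _ _ hw hw' b h
    · simp
  · intro t ht b
    by_cases hb : b ≤ p.ht
    · obtain ⟨s, hs, c, e⟩ := top t ht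
      obtain ⟨s', a1, a2, a3⟩ := hp.nrm s hs b
      refine ⟨_, Or.inl ⟨(⟨s', a1⟩, true), rfl⟩, ?_, fun d h1 h2 => ?_⟩
      · rw [e]
        exact ((agree_update hb _ _).trans a2).trans (agree_update hb _ _).symm
      · rcases (lt_sc.1 h2).lt_or_eq with h | rfl
        · simp only [Function.update_of_ne h.ne]
          exact a3 d h1 h
        · simp [dec_nb]
    · exact ⟨t, ht, .refl _ _, fun d h1 h2 => (hb (h1.trans (lt_sc.1 h2))).elim⟩
  · intro y ξ hy b hb u hu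
    obtain ⟨w, hw, rfl⟩ := prom y ξ hy
    rcases (lt_sc.1 hb).lt_or_eq with h | rfl
    · rw [Function.update_of_ne h.ne] at hu
      obtain ⟨j, a1, a2⟩ := hp.just w ξ hw b h u hu
      exact ⟨j, a1, rp.trans a2⟩
    · rw [Function.update_self] at hu
      obtain ⟨j, a1, a2⟩ := hv ξ u hu
      exact ⟨j, a1, rp.trans a2⟩

/-- The branch promised to `ξ` has a label for `z`. -/
def Lab (p : Pre) (ξ : I) (z : K) : Prop :=
  ∃ y, (y, some ξ) ∈ p.S ∧ ∃ b < p.ht, ∃ i, dec (y b) = some (z, i)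

theorem Lab.mono {p q : Pre} {ξ : I} {z : K} (h : Lab p ξ z) (hq : Le q p) : Lab q ξ z := by
  obtain ⟨y, a1, b, a2, i, a3⟩ := h
  obtain ⟨w, b1, b2⟩ := hq.prom a1
  exact ⟨w, b1, b, a2.trans_le hq.ht, i, by rw [b2 b a2]; exact a3⟩

theorem lab_dense {p : Pre} (hp : Cond Good p) {ξ : I} (hξ : ξ ∈ Good) (z : K) :
    ∃ r, Cond Good r ∧ Le r p ∧ Lab r ξ z := by
  obtain ⟨p0, a1, a2, y, hy⟩ := add_idx hp hξ
  obtain ⟨j, b1, b2, b3⟩ := hξ.1 _ (a1.res (closed_desc ξ)) z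
  obtain ⟨r, c1, c2, c3⟩ := amalg a1 b2 (closed_good.desc (closed_good ξ hξ)) b3
  obtain ⟨c, hc⟩ := dec_surj (A ξ j).1
  obtain ⟨w, hw, -⟩ := c2.prom hy
  obtain ⟨r', d1, d2, d3, -, d4⟩ := ext1 c1 (fun η => if η = ξ then c else nb true) (by
    intro η u hu
    by_cases h : η = ξ
    · subst h
      simp only [if_true, hc, Option.some.injEq] at hu
      exact ⟨j, hu, c3⟩
    · simp [h, dec_nb] at hu)
  refine ⟨r', d1, (d2.trans c2).trans a2, _, d4 w ξ hw, r.ht, d3 ▸ lt_sc.2 le_rfl,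
    (A ξ j).1.2, ?_⟩
  simp [hc, ← b1]

theorem cond_top (X : Set I) : Cond X topPre := by
  refine ⟨by simpa [topPre] using one_le_lam, singleton_nonempty _, ?_, ?_, ?_, ?_⟩
  · rintro ξ ⟨y, hy⟩
    cases hy
  · intro y z ξ hy
    cases hy
  · intro s hs b
    exact ⟨s, hs, .refl _ _, fun c _ h => absurd h (not_lt.2 (k0_le c))⟩
  · intro y ξ hy
    cases hy

/-- The forcing. -/
def Cnd : Type := {p : Pre // Cond Good p}

instance : Preorder Cnd where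
  le q p := Le q.1 p.1
  le_refl p := Le.refl p.1
  le_trans _ _ _ := Le.trans

noncomputable instance : OrderTop Cnd where
  top := ⟨topPre, cond_top _⟩
  le_top p := by
    have h0 : ∀ x y, Agree k0 x y := fun _ _ b hb => absurd hb (not_lt.2 (k0_le b))
    refine ⟨k0_le _, fun s _ => ⟨_, rfl, h0 _ _⟩, fun s hs => ?_⟩
    obtain ⟨t, ht⟩ := p.2.ne
    cases hs
    exact ⟨t, ht, h0 _ _, Or.inl rfl⟩

/-- Every dense decision procedure is coded by a good index. -/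
theorem exists_good (W : Cnd → K × Bool → Prop) (hW : ∀ p z, ∃ q ≤ p, ∃ i, W q (z, i)) :
    ∃ ξ ∈ Good, ∀ j, ∃ h : Cond Good (A ξ j).2, W ⟨_, h⟩ (A ξ j).1 := by
  choose Q hQ i hi using hW
  have h3 : ∀ Y Z : Type, #Y ≤ #J → #Z ≤ #J → #(Y × Z) ≤ #J := fun Y Z hY hZ => by
    rw [← mul_def]
    exact mul_le_of_le J_inf hY hZ
  have h4 : ∀ X : Set I, #X ≤ #J → #({p : Cnd // p.1.supp ⊆ X} × K) ≤ #J := by
    intro X hX
    refine h3 _ _ (le_trans ?_ (count_pre hX)) K_le_J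
    exact mk_le_of_injective (f := fun p => ⟨p.1.1, p.1.2.small, p.1.2.ne, p.2⟩)
      fun p q h => Subtype.ext (Subtype.ext (Subtype.mk.inj h))
  have h5 : ∀ (Y : Type) (f : Y → Set I), #Y ≤ #J → (∀ y, #(f y) ≤ lam) → #(⋃ y, f y) ≤ #J := by
    intro Y f hY hf
    refine mk_iUnion_le_sum_mk.trans ((sum_le_sum _ (fun _ => lam) hf).trans ?_)
    rw [sum_const']
    exact mul_le_of_le J_inf hY lam_le_J
  obtain ⟨S, s1, s2⟩ := exists_closed (fun s : Set I => (⋃ u : s × J, (A u.1.1 u.2).2.supp) ∪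
      ⋃ u : {p : Cnd // p.1.supp ⊆ s} × K, (Q u.1.1 u.2).1.supp) (by
    intro s hs
    refine (mk_union_le _ _).trans (add_le_of_le J_inf ?_ ?_)
    · exact h5 _ _ (h3 _ _ (hs.trans lam_le_J) le_rfl) fun u => supp_small (A_small _ _)
    · exact h5 _ _ (h4 s (hs.trans lam_le_J)) fun u => supp_small (Q _ _).2.small)
  have c1 : Closed (S ∩ Good) := by
    rintro ξ ⟨a1, a2⟩ η ⟨j, hj⟩
    refine ⟨s2 {ξ} (singleton_subset_iff.2 a1) (by simpa using one_le_lam)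
      (Or.inl (mem_iUnion.2 ⟨(⟨ξ, rfl⟩, j), hj⟩)), closed_good ξ a2 η ⟨j, hj⟩⟩
  have c2 : ∀ p : Cnd, p.1.supp ⊆ S → ∀ z, (Q p z).1.supp ⊆ S ∩ Good := fun p hp z η hη =>
    ⟨s2 _ hp (supp_small p.2.small) (Or.inr (mem_iUnion.2 ⟨(⟨p, subset_rfl⟩, z), hη⟩)),
      (Q p z).2.supp hη⟩
  have : Nonempty {p : Cnd // p.1.supp ⊆ S} := ⟨⟨⊤, (cond_top S).supp⟩⟩
  obtain ⟨e, he⟩ := exists_surj (h4 S s1)
  obtain ⟨ξ, hξ⟩ := exists_idx (fun j => (((e j).2, i (e j).1.1 (e j).2), (Q (e j).1.1 (e j).2).1))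
    (fun j => (Q _ _).2.small) fun j => (Q _ _).2.ne
  have c3 : Desc ξ ⊆ S ∩ Good := c1.desc (by
    rintro η ⟨j, hj⟩
    rw [hξ] at hj
    exact c2 _ (e j).1.2 _ hj)
  refine ⟨ξ, ⟨fun p hp z => ?_, fun η hη => (c3 hη).2.1⟩, fun j => ?_⟩
  · obtain ⟨j, hj⟩ := he (⟨⟨p, hp.mono fun η hη => (c3 (hp.supp hη)).2⟩,
      fun η hη => (c3 (hp.supp hη)).1⟩, z)
    have h6 : (A ξ j).2.supp ⊆ Desc ξ := fun η hη => Relation.TransGen.single ⟨j, hη⟩
    refine ⟨j, ?_, ?_, ?_⟩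
    · rw [hξ, hj]
    · refine Cond.mono (X := Good) ?_ h6
      rw [hξ]
      exact (Q _ _).2
    · rw [hξ, hj]
      exact hQ _ _
  · rw [hξ]
    exact ⟨(Q _ _).2, hi _ _⟩

end Pool.Agent.Lib.MP_f7d510_lc
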