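import Mathlib
import Pool.Agent.Lib.MP_f7d510_lc.Poset

/-!
Strategic closure of the forcing, distributivity, and the sealing of unlabelled branches.
-/

namespace Pool.Agent.Lib.MP_f7d510_lc

open Cardinal Set Classical

/-- `y` restricted to `b` is a node of the tree of `p`. -/
def InT (p : Pre) (b : K) (y : K → K) : Prop := b ≤ p.ht ∧ ∃ s ∈ p.S, Agree b y s.1

theorem InT.up {p q : Pre} {b : K} {y : K → K} (h : InT p b y) (hq : Le q p) : InT q b y := by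
  obtain ⟨a1, s, a2, a3⟩ := h
  obtain ⟨t, b1, b2, -⟩ := hq.up s a2
  exact ⟨a1.trans hq.ht, t, b1, a3.trans (b2.mono a1).symm⟩

theorem InT.down {p q : Pre} {b : K} {y : K → K} (h : InT q b y) (hq : Le q p) (hb : b ≤ p.ht) :
    InT p b y := by
  obtain ⟨-, s, a2, a3⟩ := h
  obtain ⟨t, b1, b2⟩ := hq.down s a2
  exact ⟨hb, t, b1, a3.trans (b2.mono hb)⟩

theorem InT.res {p : Pre} {b c : K} {y z : K → K} (h : InT p b y) (hc : c ≤ b)
    (hz : Agree c z y) : InT p c z := by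
  obtain ⟨a1, s, a2, a3⟩ := h
  exact ⟨hc.trans a1, s, a2, hz.trans (a3.mono hc)⟩

noncomputable def trunc (b : K) (y : K → K) : K → K := fun c => if c < b then y c else k0

theorem agree_trunc (b : K) (y : K → K) : Agree b (trunc b y) y := fun _ hc => if_pos hc

theorem Agree.trunc {b : K} {y z : K → K} (h : Agree b y z) : trunc b y = trunc b z := by
  funext c
  by_cases hc : c < b
  · simp [MP_f7d510_lc.trunc, hc, h c hc]
  · simp [MP_f7d510_lc.trunc, hc]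

theorem trunc_trunc (b : K) (y : K → K) : trunc b (trunc b y) = trunc b y := (agree_trunc b y).trunc

/-- `z` is a top node of `p` extending the node `(b, y)` without new labels. -/
def Ext (p : Pre) (b : K) (y z : K → K) : Prop := InT p p.ht z ∧ Agree b z y ∧ Blank b p.ht z

theorem Cond.ext {X : Set I} {p : Pre} (hp : Cond X p) {b : K} {y : K → K} (h : InT p b y) :
    ∃ z, Ext p b y z := by
  obtain ⟨-, s, a2, a3⟩ := h
  obtain ⟨t, b1, b2, b3⟩ := hp.nrm s a2 b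
  exact ⟨t.1, ⟨le_rfl, t, b1, .refl _ _⟩, b2.trans a3.symm, b3⟩

/-- A condition with a system of unlabelled extensions. -/
structure St : Type where
  p : Cnd
  e : K → (K → K) → K → K
  sys : ∀ b y, InT p.1 b y → trunc b y = y → Ext p.1 b y (e b y)

def LeS (r s : St) : Prop :=
  r.p ≤ s.p ∧ ∀ b y, InT s.p.1 b y → trunc b y = y → Agree s.p.1.ht (r.e b y) (s.e b y)

theorem LeS.refl (s : St) : LeS s s := ⟨le_rfl, fun _ _ _ _ => .refl _ _⟩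

theorem LeS.trans {r s t : St} (h : LeS r s) (h' : LeS s t) : LeS r t :=
  ⟨h.1.trans h'.1, fun b y a1 a2 =>
    ((h.2 b y (a1.up h'.1) a2).mono h'.1.ht).trans (h'.2 b y a1 a2)⟩

theorem exists_st (p : Cnd) : ∃ s : St, s.p = p := by
  have : ∀ b y, ∃ z, InT p.1 b y → Ext p.1 b y z := by
    intro b y
    by_cases h : InT p.1 b y
    · exact (p.2.ext h).imp fun _ h _ => h
    · exact ⟨y, fun h' => (h h').elim⟩
  choose e he using this
  exact ⟨⟨p, e, fun b y h _ => he b y h⟩, rfl⟩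

theorem step (s : St) : ∃ p' ≤ s.p, s.p.1.ht < p'.1.ht ∧ ∀ q ≤ p', ∀ c, ∃ r : St, r.p = q ∧
    LeS r s ∧ ∀ b y, InT s.p.1 b y → trunc b y = y → r.e b y s.p.1.ht ≠ c := by
  obtain ⟨p', a1, a2, a3, a4, -⟩ := ext1 s.p.2 (fun _ => nb true) (by simp [dec_nb])
  have hlt : s.p.1.ht < p'.ht := a3 ▸ lt_sc.2 le_rfl
  refine ⟨⟨p', a1⟩, a2, hlt, fun q hq c => ?_⟩
  obtain ⟨i, hi⟩ := exists_nb c
  have : ∀ b y, ∃ z, (InT q.1 b y → trunc b y = y → Ext q.1 b y z) ∧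
      (InT s.p.1 b y → trunc b y = y → Agree s.p.1.ht z (s.e b y) ∧ z s.p.1.ht ≠ c) := by
    intro b y
    by_cases h : InT s.p.1 b y ∧ trunc b y = y
    · obtain ⟨⟨-, t, b1, b2⟩, b3, b4⟩ := s.sys b y h.1 h.2
      have c1 : InT q.1 p'.ht (Function.update t.1 s.p.1.ht (nb i)) :=
        InT.up ⟨le_rfl, _, a4 t b1 i, .refl _ _⟩ hq
      obtain ⟨z, d1, d2, d3⟩ := q.2.ext c1
      have e1 : Agree s.p.1.ht z (s.e b y) :=
        ((d2.mono hlt.le).trans (agree_update le_rfl _ _)).trans b2.symm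
      have e2 : z s.p.1.ht = nb i := by rw [d2 _ hlt, Function.update_self]
      refine ⟨z, fun _ _ => ⟨d1, (e1.mono h.1.1).trans b3, fun d h1 h2 => ?_⟩,
        fun _ _ => ⟨e1, e2 ▸ hi⟩⟩
      rcases lt_trichotomy d s.p.1.ht with h3 | rfl | h3
      · rw [e1 d h3]
        exact b4 d h1 h3
      · rw [e2, dec_nb]
      · refine d3 d (not_lt.1 fun h4 => ?_) h2
        rw [a3, lt_sc] at h4
        exact absurd h3 (not_lt.2 h4)
    · by_cases h' : InT q.1 b y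
      · obtain ⟨z, hz⟩ := q.2.ext h'
        exact ⟨z, fun _ _ => hz, fun h1 h2 => (h ⟨h1, h2⟩).elim⟩
      · exact ⟨y, fun h1 => (h' h1).elim, fun h1 h2 => (h ⟨h1, h2⟩).elim⟩
  choose e h1 h2 using this
  exact ⟨⟨q, e, h1⟩, rfl, ⟨Le.trans hq a2, fun b y c1 c2 => (h2 b y c1 c2).1⟩,
    fun b y c1 c2 => (h2 b y c1 c2).2⟩

theorem glue {ι : Type} (h : ι → K) (R : ι → (K → K) → Prop) (d : K → K)
    (hR : ∀ i j y z, R i y → R j z → ∀ c, c < h i → c < h j → y c = z c) :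
    ∃ w, (∀ i y, R i y → Agree (h i) w y) ∧ ∀ c, (¬ ∃ i y, R i y ∧ c < h i) → w c = d c := by
  refine ⟨fun c => if hc : ∃ u : ι × (K → K), R u.1 u.2 ∧ c < h u.1 then hc.choose.2 c else d c,
    fun i y hy c hc => ?_, fun c hc => ?_⟩
  · have h1 : ∃ u : ι × (K → K), R u.1 u.2 ∧ c < h u.1 := ⟨(i, y), hy, hc⟩
    simp only [dif_pos h1]
    exact hR _ _ _ _ h1.choose_spec.1 hy c h1.choose_spec.2 hc
  · exact dif_neg fun ⟨u, h1, h2⟩ => hc ⟨u.1, u.2, h1, h2⟩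

theorem limit {ι : Type} [LinearOrder ι] [Nonempty ι] (hι : #ι ≤ lam) (s : ι → St)
    (hs : ∀ i j, i ≤ j → LeS (s j) (s i)) :
    ∃ r : St, (∀ i, LeS r (s i)) ∧ (∀ b < r.p.1.ht, ∃ i, b < (s i).p.1.ht) ∧
      ∀ t ∈ r.p.1.S, (∃ i b y, InT (s i).p.1 b y ∧ trunc b y = y ∧ t.1 = r.e b y) ∨
        ∃ ξ i, t.2 = some ξ ∧ ξ ∈ (s i).p.1.supp := by
  obtain ⟨a, ha, hl⟩ := exists_lub hι fun i => (s i).p.1.ht
  have hle : ∀ i j, i ≤ j → Le (s j).p.1 (s i).p.1 := fun i j h => (hs i j h).1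
  choose e he he' using fun b y => glue (fun i => (s i).p.1.ht)
    (fun i z => InT (s i).p.1 b y ∧ trunc b y = y ∧ z = (s i).e b y) y (by
      rintro i j _ _ ⟨a1, a2, rfl⟩ ⟨a3, -, rfl⟩ c c1 c2
      rcases le_total i j with h | h
      · exact ((hs i j h).2 b y a1 a2 c c1).symm
      · exact (hs j i h).2 b y a3 a2 c c2)
  have he1 : ∀ i b y, InT (s i).p.1 b y → trunc b y = y →
      Agree (s i).p.1.ht (e b y) ((s i).e b y) := fun i b y h1 h2 => he b y i _ ⟨h1, h2, rfl⟩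
  choose w hw _ using fun ξ => glue (fun i => (s i).p.1.ht)
    (fun i z => (z, some ξ) ∈ (s i).p.1.S) (fun _ => k0) (by
      intro i j y z a1 a2 c c1 c2
      rcases le_total i j with h | h
      · obtain ⟨u, b1, b2⟩ := (hle i j h).prom a1
        exact (b2 c c1).symm.trans ((s j).p.2.fn _ _ _ b1 a2 c c2)
      · obtain ⟨u, b1, b2⟩ := (hle j i h).prom a2
        exact ((s i).p.2.fn _ _ _ a1 b1 c c1).trans (b2 c c2))
  let q : Pre := ⟨a, (⋃ i, range fun u : Iic (s i).p.1.ht × (s i).p.1.S =>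
    (e u.1.1 (trunc u.1.1 u.2.1.1), none)) ∪ ⋃ i, (fun ξ => (w ξ, some ξ)) '' (s i).p.1.supp⟩
  have m1 : ∀ i b y, InT (s i).p.1 b y → (e b (trunc b y), none) ∈ q.S := by
    rintro i b y ⟨a1, t, a2, a3⟩
    exact Or.inl (mem_iUnion.2 ⟨i, (⟨b, a1⟩, ⟨t, a2⟩), by rw [a3.trunc]⟩)
  have m2 : ∀ i ξ, ξ ∈ (s i).p.1.supp → (w ξ, some ξ) ∈ q.S := fun i ξ h =>
    Or.inr (mem_iUnion.2 ⟨i, ξ, h, rfl⟩)
  have m3 : ∀ t ∈ q.S, (∃ i b y, InT (s i).p.1 b y ∧ trunc b y = y ∧ t = (e b y, none)) ∨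
      ∃ ξ i, t = (w ξ, some ξ) ∧ ξ ∈ (s i).p.1.supp := by
    rintro t (ht | ht)
    · obtain ⟨i, u, rfl⟩ := mem_iUnion.1 ht
      exact Or.inl ⟨i, _, _, ⟨u.1.2, _, u.2.2, agree_trunc _ _⟩, trunc_trunc _ _, rfl⟩
    · obtain ⟨i, ξ, h, rfl⟩ := mem_iUnion.1 ht
      exact Or.inr ⟨ξ, i, rfl, h⟩
  have m4 : ∀ y ξ, (y, some ξ) ∈ q.S → y = w ξ ∧ ∃ i, ξ ∈ (s i).p.1.supp := by
    intro y ξ h
    rcases m3 _ h with ⟨_, _, _, _, _, h⟩ | ⟨η, i, h1, h2⟩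
    · cases h
    · cases h1
      exact ⟨rfl, i, h2⟩
  have m5 : ∀ t ∈ q.S, ∀ i, InT (s i).p.1 (s i).p.1.ht t.1 := by
    intro t ht i
    rcases m3 t ht with ⟨j, b, y, a1, a2, rfl⟩ | ⟨ξ, j, rfl, y, hy⟩
    · have b1 := a1.up (hle j (max i j) (le_max_right i j))
      have b2 := (((s _).sys b y b1 a2).1.res le_rfl (he1 _ b y b1 a2))
      have b3 := hle i (max i j) (le_max_left i j)
      exact (b2.res b3.ht (.refl _ _)).down b3 le_rfl
    · obtain ⟨z, b1, -⟩ := (hle j (max i j) (le_max_right i j)).prom hy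
      have b3 := hle i (max i j) (le_max_left i j)
      have b2 : InT (s (max i j)).p.1 (s (max i j)).p.1.ht (w ξ) := ⟨le_rfl, _, b1, hw ξ _ z b1⟩
      exact (b2.res b3.ht (.refl _ _)).down b3 le_rfl
  have m6 : ∀ i b y, InT (s i).p.1 b y → trunc b y = y → Agree b (e b y) y ∧ Blank b a (e b y) := by
    intro i b y a1 a2
    refine ⟨((he1 i b y a1 a2).mono a1.1).trans ((s i).sys b y a1 a2).2.1, fun c c1 c2 => ?_⟩
    obtain ⟨j, hj⟩ := hl c c2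
    have b1 := a1.up (hle i (max i j) (le_max_left i j))
    have b2 := hj.trans_le (hle j (max i j) (le_max_right i j)).ht
    rw [he1 _ b y b1 a2 c b2]
    exact ((s _).sys b y b1 a2).2.2 c c1 b2
  have qle : ∀ i, Le q (s i).p.1 := by
    intro i
    refine ⟨ha i, fun t ht => (m5 t ht i).2, ?_⟩
    rintro ⟨y, _ | ξ⟩ hy
    · have a1 : InT (s i).p.1 (s i).p.1.ht y := ⟨le_rfl, _, hy, .refl _ _⟩
      exact ⟨_, m1 i _ y a1, (m6 i _ _ (a1.res le_rfl (agree_trunc _ _)) (trunc_trunc _ _)).1.trans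
        (agree_trunc _ _), Or.inl rfl⟩
    · exact ⟨_, m2 i ξ ⟨y, hy⟩, hw ξ i y hy, Or.inr rfl⟩
  have hsum : ∀ f : ι → Set ((K → K) × Option I), (∀ i, #(f i) ≤ lam) → #(⋃ i, f i) ≤ lam := by
    intro f hf
    refine mk_iUnion_le_sum_mk.trans ((sum_le_sum _ (fun _ => lam) hf).trans ?_)
    rw [sum_const']
    exact mul_le_of_le lam_inf hι le_rfl
  have m7 : ∀ b y, InT q b y → (∃ i, InT (s i).p.1 b y) ∨ (b = a ∧ ∀ i, ¬ InT (s i).p.1 b y) := by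
    intro b y h
    by_cases h1 : ∃ i, InT (s i).p.1 b y
    · exact Or.inl h1
    · refine Or.inr ⟨h.1.eq_or_lt.resolve_right fun h2 => ?_, fun i hi => h1 ⟨i, hi⟩⟩
      obtain ⟨i, hi⟩ := hl b h2
      exact h1 ⟨i, h.down (qle i) hi.le⟩
  have hq : Cond Good q := by
    refine ⟨?_, ?_, ?_, ?_, ?_, ?_⟩
    · refine (mk_union_le _ _).trans (add_le_of_le lam_inf (hsum _ fun i => ?_) (hsum _ fun i => ?_))
      · refine mk_range_le.trans ?_
        rw [← mul_def]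
        exact mul_le_of_le lam_inf (small_Iic _) (s i).p.2.small
      · exact mk_image_le.trans (supp_small (s i).p.2.small)
    · obtain ⟨i⟩ := ‹Nonempty ι›
      obtain ⟨t, ht⟩ := (s i).p.2.ne
      obtain ⟨u, hu, -⟩ := (qle i).up t ht
      exact ⟨u, hu⟩
    · rintro ξ ⟨y, hy⟩
      obtain ⟨-, i, hi⟩ := m4 y ξ hy
      exact (s i).p.2.supp hi
    · intro y z ξ hy hz
      rw [(m4 y ξ hy).1, (m4 z ξ hz).1]
      exact .refl _ _
    · intro t ht b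
      by_cases hb : b < a
      · obtain ⟨i, hi⟩ := hl b hb
        have a1 := (m5 t ht i).res hi.le (.refl _ _)
        have a2 := m6 i _ _ (a1.res le_rfl (agree_trunc _ _)) (trunc_trunc _ _)
        exact ⟨_, m1 i b _ a1, a2.1.trans (agree_trunc _ _), a2.2⟩
      · exact ⟨t, ht, .refl _ _, fun c c1 c2 => (hb (c1.trans_lt c2)).elim⟩
    · intro y ξ hy b hb u hu
      obtain ⟨rfl, i, z, hz⟩ := m4 y ξ hy
      obtain ⟨j, hj⟩ := hl b hb
      obtain ⟨z', b1, -⟩ := (hle i (max i j) (le_max_left i j)).prom hz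
      have b2 := hj.trans_le (hle j (max i j) (le_max_right i j)).ht
      rw [hw ξ _ z' b1 b b2] at hu
      obtain ⟨k, c1, c2⟩ := (s _).p.2.just z' ξ b1 b b2 u hu
      exact ⟨k, c1, (qle _).trans c2⟩
  refine ⟨⟨⟨q, hq⟩, e, fun b y h1 h2 => ?_⟩, fun i => ⟨qle i, he1 i⟩, hl, fun t ht => ?_⟩
  · rcases m7 b y h1 with ⟨i, hi⟩ | ⟨rfl, h3⟩
    · have := m1 i b y hi
      rw [h2] at this
      exact ⟨⟨le_rfl, _, this, .refl _ _⟩, m6 i b y hi h2⟩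
    · have : e b y = y := funext fun c => he' b y c fun ⟨i, _, h, _⟩ => h3 i h.1
      rw [this]
      exact ⟨h1, .refl _ _, fun c c1 c2 => absurd c2 (not_lt.2 c1)⟩
  · rcases m3 t ht with ⟨j, b, y, a1, a2, rfl⟩ | ⟨ξ, j, rfl, h⟩
    exacts [Or.inl ⟨j, b, y, a1, a2, rfl⟩, Or.inr ⟨ξ, j, rfl, h⟩]

theorem lower {ι : Type} [LinearOrder ι] (hι : #ι ≤ lam) (s : ι → St)
    (hs : ∀ i j, i ≤ j → LeS (s j) (s i)) (r0 : St) (h0 : ∀ i, LeS (s i) r0) :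
    ∃ r : St, LeS r r0 ∧ ∀ i, LeS r (s i) := by
  rcases isEmpty_or_nonempty ι with h | ⟨⟨i⟩⟩
  · exact ⟨r0, .refl _, fun i => h.elim i⟩
  · have : Nonempty ι := ⟨i⟩
    obtain ⟨r, h1, -⟩ := limit hι s hs
    exact ⟨r, (h1 i).trans (h0 i), h1⟩

/-- Distributivity. -/
theorem baire {ι : Type} (hι : #ι ≤ lam) (D : ι → Cnd → Prop)
    (ho : ∀ i p q, D i p → q ≤ p → D i q) (p : Cnd) (hd : ∀ i, ∀ q ≤ p, ∃ r ≤ q, D i r) :
    ∃ q ≤ p, ∀ i, D i q := by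
  obtain ⟨_, _⟩ := exists_wellFoundedLT ι
  obtain ⟨r0, rfl⟩ := exists_st p
  let F : ∀ i : ι, (∀ j, j < i → St) → St := fun i g =>
    if h : ∃ r, LeS r r0 ∧ D i r.p ∧ ∀ j hj, LeS r (g j hj) then h.choose else r0
  let s : ι → St := (wellFounded_lt (α := ι)).fix F
  have hs : ∀ i, s i = F i fun j _ => s j := fun i => WellFounded.fix_eq _ _ _
  have key : ∀ i, LeS (s i) r0 ∧ D i (s i).p ∧ ∀ j < i, LeS (s i) (s j) := by
    intro i
    induction i using WellFoundedLT.induction with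
    | ind i ih =>
      have h : ∃ r, LeS r r0 ∧ D i r.p ∧ ∀ j, j < i → LeS r (s j) := by
        obtain ⟨r, a1, a2⟩ := lower (ι := Iio i) ((mk_set_le _).trans hι) (fun j => s j.1)
          (fun j k h => h.eq_or_lt.elim (fun h => h ▸ .refl _) fun h => (ih k.1 k.2).2.2 j.1 h)
          r0 fun j => (ih j.1 j.2).1
        obtain ⟨p', b1, -, b2⟩ := step r
        obtain ⟨q, c1, c2⟩ := hd i p' (b1.trans a1.1)
        obtain ⟨r', rfl, d1, -⟩ := b2 q c1 k0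
        exact ⟨r', d1.trans a1, c2, fun j hj => d1.trans (a2 ⟨j, hj⟩)⟩
      rw [hs i]
      simp only [F, dif_pos h]
      exact h.choose_spec
  obtain ⟨r, a1, a2⟩ := lower hι s
    (fun j k h => h.eq_or_lt.elim (fun h => h ▸ .refl _) fun h => (key k).2.2 j h) r0
    fun j => (key j).1
  exact ⟨r.p, a1.1, fun i => ho i _ _ (key i).2.1 (a2 i).1⟩

theorem ht_dense (a : K) : ∀ p : Cnd, ∃ q ≤ p, a < q.1.ht := by
  induction a using WellFoundedLT.induction with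
  | ind b ih =>
    intro q
    obtain ⟨r, a1, a2⟩ := baire (small b) (fun c q => c.1 < q.1.ht)
      (fun _ _ _ h hq => h.trans_le hq.ht) q fun c r _ => ih c.1 c.2 r
    obtain ⟨r', b1, b2, b3, -⟩ := ext1 r.2 (fun _ => nb true) (by simp [dec_nb])
    refine ⟨⟨r', b1⟩, Le.trans b2 a1, ?_⟩
    change b < r'.ht
    rw [b3, lt_sc]
    exact not_lt.1 fun h => lt_irrefl _ (a2 ⟨_, h⟩)

section sealing

variable (V : Cnd → K → K → Prop) (hV : ∀ p q b c, V p b c → q ≤ p → V q b c)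

def Alt1 (q : Cnd) : Prop := ∃ b, ∀ r ≤ q, ¬ ∃ c, V r b c

def Alt2 (q : Cnd) (z : K) : Prop := ∃ b c i, V q b c ∧ dec c = some (z, i)

def Alt3 (q : Cnd) : Prop := ∃ a x, (∀ b < a, V q b (x b)) ∧ a ≤ q.1.ht ∧ ¬ InT q.1 a x

include hV

theorem sealed (p : Cnd) (z : K) : ∃ q ≤ p, Alt1 V q ∨ Alt2 V q z ∨ Alt3 V q := by
  by_contra hc
  push Not at hc
  have h1 : ∀ q ≤ p, ∀ b, ∃ r ≤ q, ∃ c, V r b c := by
    intro q hq b
    by_contra h
    push Not at h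
    exact (hc q hq).1 ⟨b, fun r hr ⟨c, h'⟩ => h r hr c h'⟩
  have h2 : ∀ u : St × (K → K), u.1.p ≤ p →
      ∀ a ≤ u.1.p.1.ht, (∀ b < a, V u.1.p b (u.2 b)) →
      ∃ v : St × (K → K), LeS v.1 u.1 ∧ u.1.p.1.ht < v.1.p.1.ht ∧ Agree a v.2 u.2 ∧
        (∀ b ≤ u.1.p.1.ht, V v.1.p b (v.2 b)) ∧ (∀ ξ ∈ u.1.p.1.supp, Lab v.1.p.1 ξ z) ∧
        ∀ b y, InT u.1.p.1 b y → trunc b y = y → v.1.e b y u.1.p.1.ht ≠ v.2 u.1.p.1.ht := by
    rintro ⟨s, x⟩ a1 a a2 a3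
    obtain ⟨p', b1, b2, b3⟩ := step s
    obtain ⟨q1, c1, c2⟩ := baire (small_Iic s.p.1.ht) (fun b q => ∃ c, V q b.1 c)
      (fun _ _ _ h hq => h.imp fun _ h => hV _ _ _ _ h hq) p'
      fun b q hq => h1 q (hq.trans (b1.trans a1)) b.1
    obtain ⟨q2, c3, c4⟩ := baire (supp_small s.p.2.small) (fun ξ q => Lab q.1 ξ.1 z)
      (fun _ _ _ h hq => h.mono hq) q1 fun ξ q _ => by
        obtain ⟨r, d1, d2, d3⟩ := lab_dense q.2 (s.p.2.supp ξ.2) z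
        exact ⟨⟨r, d1⟩, d2, d3⟩
    have : ∀ b, ∃ c, (b < a → c = x b) ∧ (b ≤ s.p.1.ht → V q2 b c) := by
      intro b
      by_cases hb : b < a
      · exact ⟨x b, fun _ => rfl, fun _ => hV _ _ _ _ (a3 b hb) (c3.trans (c1.trans b1))⟩
      · by_cases hb' : b ≤ s.p.1.ht
        · obtain ⟨c, hc⟩ := c2 ⟨b, hb'⟩
          exact ⟨c, fun h => (hb h).elim, fun _ => hV _ _ _ _ hc c3⟩
        · exact ⟨b, fun h => (hb h).elim, fun h => (hb' h).elim⟩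
    choose x' d1 d2 using this
    obtain ⟨r, rfl, e1, e2⟩ := b3 q2 (c3.trans c1) (x' s.p.1.ht)
    exact ⟨(r, x'), e1, b2.trans_le (c3.trans c1).ht, d1, d2, fun ξ h => c4 ⟨ξ, h⟩, e2⟩
  obtain ⟨s0, rfl⟩ := exists_st p
  let T := {u : (St × (K → K)) × K // u.1.1.p ≤ s0.p ∧ u.2 ≤ u.1.1.p.1.ht ∧
    ∀ b < u.2, V u.1.1.p b (u.1.2 b)}
  have h3 : ∀ u : T, ∃ v : T, LeS v.1.1.1 u.1.1.1 ∧ v.1.2 = sc u.1.1.1.p.1.ht ∧
      Agree u.1.2 v.1.1.2 u.1.1.2 ∧ (∀ ξ ∈ u.1.1.1.p.1.supp, Lab v.1.1.1.p.1 ξ z) ∧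
      ∀ b y, InT u.1.1.1.p.1 b y → trunc b y = y →
        v.1.1.1.e b y u.1.1.1.p.1.ht ≠ v.1.1.2 u.1.1.1.p.1.ht := by
    rintro ⟨⟨u, a⟩, a1, a2, a3⟩
    obtain ⟨v, b1, b2, b3, b4, b5, b6⟩ := h2 u a1 a a2 a3
    exact ⟨⟨(v, sc u.1.p.1.ht), b1.1.trans a1, not_lt.1 fun h => absurd b2 (not_lt.2 (lt_sc.1 h)),
      fun b hb => b4 b (lt_sc.1 hb)⟩, b1, rfl, b3, b5, b6⟩
  choose nx n1 n2 n3 n4 n5 using h3
  let u : ℕ → T := fun n => nx^[n] ⟨((s0, fun b => b), k0), le_rfl, k0_le _,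
    fun b hb => absurd hb (not_lt.2 (k0_le b))⟩
  have hu : ∀ n, u (n + 1) = nx (u n) := fun n => Function.iterate_succ_apply' _ _ _
  have m1 : ∀ i j, i ≤ j → LeS (u j).1.1.1 (u i).1.1.1 := by
    intro i j h
    induction j, h using Nat.le_induction with
    | base => exact .refl _
    | succ j _ ih => rw [hu]; exact (n1 _).trans ih
  have m2 : ∀ i j, i ≤ j → (u i).1.2 ≤ (u j).1.2 ∧ Agree (u i).1.2 (u j).1.1.2 (u i).1.1.2 := by
    intro i j h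
    induction j, h using Nat.le_induction with
    | base => exact ⟨le_rfl, .refl _ _⟩
    | succ j _ ih =>
      rw [hu]
      refine ⟨ih.1.trans ?_, ((n3 _).mono ih.1).trans ih.2⟩
      rw [n2]
      exact (u j).2.2.1.trans (lt_sc.2 le_rfl).le
  obtain ⟨x, hx, -⟩ := glue (fun n => (u n).1.2) (fun n y => y = (u n).1.1.2) (fun b => b) (by
    rintro i j _ _ rfl rfl c c1 c2
    rcases le_total i j with h | h
    · exact ((m2 i j h).2 c c1).symm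
    · exact (m2 j i h).2 c c2)
  obtain ⟨r, r1, r2, r3⟩ := limit (by simpa using lam_inf) (fun n => (u n).1.1.1) m1
  have m3 : ∀ n, (u n).1.1.1.p.1.ht < (u (n + 1)).1.2 := fun n => by
    rw [hu, n2]; exact lt_sc.2 le_rfl
  have m4 : ∀ b < r.p.1.ht, V r.p b (x b) := by
    intro b hb
    obtain ⟨n, hn⟩ := r2 b hb
    have := hn.trans (m3 n)
    rw [hx _ _ rfl b this]
    exact hV _ _ _ _ ((u (n + 1)).2.2.2 b this) (r1 _).1
  have hr := hc r.p ((r1 0).1.trans (u 0).2.1)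
  refine hr.2.2 ⟨_, x, m4, le_rfl, ?_⟩
  rintro ⟨-, t, a1, a2⟩
  rcases r3 t a1 with ⟨n, b, y, b1, b2, b3⟩ | ⟨ξ, n, b1, b2⟩
  · have c1 := n5 (u n) b y b1 b2
    rw [← hu] at c1
    have c2 := (m3 n).trans_le (u (n + 1)).2.2.1
    refine c1 ?_
    rw [← (r1 (n + 1)).2 b y (b1.up (m1 n (n + 1) n.le_succ).1) b2 _ c2, ← hx _ _ rfl _ (m3 n),
      ← b3]
    exact (a2 _ (c2.trans_le (r1 (n + 1)).1.ht)).symm
  · have c1 := n4 (u n) ξ b2
    rw [← hu] at c1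
    obtain ⟨y, d1, b, d2, i, d3⟩ := c1.mono (r1 (n + 1)).1
    have d4 : (t.1, some ξ) ∈ r.p.1.S := b1 ▸ a1
    refine hr.2.1 ⟨b, x b, i, m4 b d2, ?_⟩
    rw [a2 b d2, r.p.2.fn _ _ _ d4 d1 b d2]
    exact d3

def Alt4 (q : Cnd) (a : K) : Prop :=
  ∃ a', ∀ z < a, ∃ b < a', ∃ c i, V q b c ∧ dec c = some (z, i)

theorem sealed_all (p : Cnd) (a : K) : ∃ q ≤ p, Alt1 V q ∨ Alt3 V q ∨ Alt4 V q a := by
  obtain ⟨q, h1, h2⟩ := baire (small a) (fun z q => Alt1 V q ∨ Alt2 V q z.1 ∨ Alt3 V q) (by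
    rintro z p q (⟨b, h⟩ | ⟨b, c, i, h1, h2⟩ | ⟨a, x, h1, h2, h3⟩) hq
    · exact Or.inl ⟨b, fun r hr => h r (hr.trans hq)⟩
    · exact Or.inr (Or.inl ⟨b, c, i, hV _ _ _ _ h1 hq, h2⟩)
    · exact Or.inr (Or.inr ⟨a, x, fun b hb => hV _ _ _ _ (h1 b hb) hq, h2.trans hq.ht,
        fun h => h3 (h.down hq h2)⟩)) p fun z q _ => sealed V hV q z.1
  refine ⟨q, h1, ?_⟩
  by_cases a1 : Alt1 V q
  · exact Or.inl a1
  by_cases a3 : Alt3 V q
  · exact Or.inr (Or.inl a3)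
  choose b hb using fun z => ((h2 z).resolve_left a1).resolve_right a3
  obtain ⟨a', ha⟩ := bdd (small a) b
  exact Or.inr (Or.inr ⟨a', fun z hz => ⟨b ⟨z, hz⟩, ha _, hb _⟩⟩)

end sealing

end Pool.Agent.Lib.MP_f7d510_lc
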