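import Mathlib
import Pool.Agent.Shared.Forcing
import Pool.Agent.Lib.MP_f7d510_lc.Closure
import Pool.Agent.Lib.MP_f7d510_lc.Definable

/-!
The generic extension contains a strong `ℵ_{ω+1}`-Kurepa tree.
-/

namespace Pool.Agent.Lib.MP_f7d510_lc

open Cardinal Set Classical Pool.Agent.Lib.MP_053343_lc Pool.Agent.Lib.MP_053343_lc.Name
  Pool.Agent.Shared.Forcing

noncomputable def ordN : K → Name Cnd :=
  (wellFounded_lt (α := K)).fix fun a f => setN fun b : Iio a => f b.1 b.2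

theorem ordN_eq (a : K) : ordN a = setN fun b : Iio a => ordN b.1 := WellFounded.fix_eq _ _ _

theorem feq_ordN {a : K} : ∀ {b : K} {p : Cnd}, FEq (ordN a) (ordN b) p → a = b := by
  induction a using WellFoundedLT.induction with
  | ind a ih =>
    intro b p h
    rw [ordN_eq a, ordN_eq b, feq_iff] at h
    rcases lt_trichotomy a b with hl | hl | hl
    · obtain ⟨r, _, i, _, h'⟩ := h.2 (⟨a, hl⟩ : Iio b) p le_rfl le_top
      exact absurd (ih _ i.2 h') (ne_of_lt i.2)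
    · exact hl
    · obtain ⟨r, _, i, _, h'⟩ := h.1 (⟨b, hl⟩ : Iio a) p le_rfl le_top
      exact absurd (ih _ hl h').symm (ne_of_lt i.2)

theorem ordN_inj {a b : K} (h : ordN a = ordN b) : a = b :=
  feq_ordN (p := ⊤) (h ▸ FEq.refl _ _)

theorem upairN_inj {σ τ σ' τ' : Name Cnd} (h : upairN σ τ = upairN σ' τ') : σ = σ' ∧ τ = τ' := by
  unfold upairN setN at h
  injection h with _ h _
  exact ⟨congrFun h true, congrFun h false⟩

theorem pairN_inj {σ τ σ' τ' : Name Cnd} (h : pairN σ τ = pairN σ' τ') : σ = σ' ∧ τ = τ' :=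
  upairN_inj (upairN_inj h).2

theorem ch_of_eq {σ τ : Name Cnd} (h : σ = τ) (i : σ.Ty) : ∃ j, σ.ch i = τ.ch j := by
  subst h
  exact ⟨i, rfl⟩

noncomputable def dK (τ : Name Cnd) : K := if h : ∃ a, τ = ordN a then h.choose else k0

@[simp] theorem dK_ordN (a : K) : dK (ordN a) = a := by
  have h : ∃ b, ordN a = ordN b := ⟨a, rfl⟩
  unfold dK
  rw [dif_pos h]
  exact (ordN_inj h.choose_spec).symm

noncomputable def grN {ι : Type} (A B : ι → Name Cnd) : Name Cnd :=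
  setN fun i => pairN (A i) (B i)

noncomputable def funN (a : K) (x : K → K) : Name Cnd :=
  grN (fun b : Iio a => ordN b.1) fun b => ordN (x b.1)

theorem Agree.funN {a : K} {x y : K → K} (h : Agree a x y) : funN a x = funN a y := by
  unfold MP_f7d510_lc.funN
  congr 1
  funext b
  rw [h b.1 b.2]

theorem funN_le {a a' : K} {x y : K → K} (h : funN a x = funN a' y) : a ≤ a' ∧ Agree a x y := by
  have : ∀ b < a, b < a' ∧ x b = y b := by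
    intro b hb
    obtain ⟨j, hj⟩ := ch_of_eq h ⟨b, hb⟩
    obtain ⟨h1, h2⟩ := pairN_inj hj
    have h3 : b = j.1 := ordN_inj h1
    subst h3
    exact ⟨j.2, ordN_inj h2⟩
  exact ⟨not_lt.1 fun h => lt_irrefl _ (this _ h).1, fun b hb => (this b hb).2⟩

theorem funN_inj {a a' : K} {x y : K → K} (h : funN a x = funN a' y) : a = a' ∧ Agree a x y :=
  ⟨(funN_le h).1.antisymm (funN_le h.symm).1, (funN_le h).2⟩

noncomputable def l0 : K := exists_l0.choose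
noncomputable def w0 : K := exists_l0.choose_spec.choose
noncomputable def cf : K → K := exists_l0.choose_spec.choose_spec.choose

theorem l0_spec : #(Iio l0) = lam ∧ (∀ a < l0, #(Iio a) < lam) ∧ w0 < l0 ∧
    (∀ b < w0, cf b < l0) ∧ ∀ x < l0, ∃ b < w0, x < cf b :=
  exists_l0.choose_spec.choose_spec.choose_spec

theorem exists_inj {X : Type} {s : Set X} (h : #s ≤ lam) :
    ∃ g : X → K, (∀ x ∈ s, g x < l0) ∧ InjOn g s := by
  rw [← l0_spec.1] at h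
  obtain ⟨e⟩ := (Cardinal.le_def _ _).1 h
  refine ⟨fun x => if h : x ∈ s then (e ⟨x, h⟩).1 else k0, fun x hx => ?_, fun x hx y hy h => ?_⟩
  · simp only [dif_pos hx]
    exact (e _).2
  · simp only [dif_pos hx, dif_pos hy] at h
    exact Subtype.mk.inj (e.injective (Subtype.ext h))

def Inv (σ : Name Cnd) (q : Cnd) (b c : K) : Prop := FMem (pairN (ordN c) (ordN b)) σ q

noncomputable def fv (σ : Name Cnd) (q : Cnd) (b : K) : K :=
  if h : ∃ c, Inv σ q b c then h.choose else k0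

theorem fv_spec {σ : Name Cnd} {q : Cnd} {b : K} (h : ∃ c, Inv σ q b c) : Inv σ q b (fv σ q b) := by
  unfold fv
  rw [dif_pos h]
  exact h.choose_spec

def Lset (L : Bool) : Set K := cond L (Iio l0) univ

def Wd (σ : Name Cnd) (q : Cnd) (u : K × Bool) : Prop :=
  cond u.2 (FMem (pairN (ordN u.1) (natN 1)) σ q)
    (∀ r ≤ q, ¬ FMem (pairN (ordN u.1) (natN 1)) σ r)

theorem wd_dense (σ : Name Cnd) (p : Cnd) (z : K) : ∃ q ≤ p, ∃ i, Wd σ q (z, i) := by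
  by_cases h : ∃ q ≤ p, FMem (pairN (ordN z) (natN 1)) σ q
  · obtain ⟨q, h1, h2⟩ := h
    exact ⟨q, h1, true, h2⟩
  · exact ⟨p, le_rfl, false, fun r hr h' => h ⟨r, hr, h'⟩⟩

noncomputable def idx (σ : Name Cnd) : I := (exists_good (Wd σ) (wd_dense σ)).choose

theorem idx_spec (σ : Name Cnd) : idx σ ∈ Good ∧
    ∀ j, ∃ h : Cond Good (A (idx σ) j).2, Wd σ ⟨_, h⟩ (A (idx σ) j).1 :=
  (exists_good (Wd σ) (wd_dense σ)).choose_spec

def Vb (σ : Name Cnd) (q : Cnd) (b c : K) : Prop :=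
  ∃ a x, b < a ∧ x b = c ∧ FMem (funN a x) σ q

theorem Vb.mono (σ : Name Cnd) (p q : Cnd) (b c : K) (h : Vb σ p b c) (hq : q ≤ p) :
    Vb σ q b c := by
  obtain ⟨a, x, h1, h2, h3⟩ := h
  exact ⟨a, x, h1, h2, h3.mono hq⟩

noncomputable def TN : Name Cnd :=
  ⟨{u : Cnd × K × (K → K) // InT u.1.1 u.2.1 u.2.2}, fun u => funN u.1.2.1 u.1.2.2, fun u => u.1.1⟩

def InB (ξ : I) (p : Pre) (a : K) (x : K → K) : Prop :=
  a ≤ p.ht ∧ ∃ y, (y, some ξ) ∈ p.S ∧ Agree a x y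

noncomputable def BN (ξ : I) : Name Cnd :=
  ⟨{u : Cnd × K × (K → K) // InB ξ u.1.1 u.2.1 u.2.2}, fun u => funN u.1.2.1 u.1.2.2,
    fun u => u.1.1⟩

noncomputable def DN (i : Bool) : Name Cnd :=
  grN (fun u : {u : K × K // dec u.1 = some (u.2, i)} => ordN u.1.1) fun u => ordN u.1.2

def Q (q : Cnd) (a : K) : Set (K → K) := (fun s => trunc a s.1) '' q.1.S

noncomputable def levN (q : Cnd) (a : K) : Name Cnd := setN fun y : Q q a => funN a y.1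

noncomputable def injN (q : Cnd) (a : K) (h : (K → K) → K) : Name Cnd :=
  grN (fun y : Q q a => funN a y.1) fun y => ordN (h y.1)

inductive UR : Type
  | kap | tree | dn (i : Bool) | l0 | cof | app | dom | succ | diff | res | col | cfw
  | fv | miss (L : Bool) | lev | inj | node | br | brn | alt1 | alt3 | alt4 | vb | lab
  deriving Countable

def UR.ev : UR → List (Name Cnd) → Name Cnd → Prop
  | .kap, _, x => x = setN ordN
  | .tree, _, x => x = TN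
  | .dn i, _, x => x = DN i
  | .l0, _, x => x = ordN MP_f7d510_lc.l0
  | .cof, _, x => x = funN w0 cf
  | .app, l, x => ∃ i y, x = (l.getD 0 empty).ch i ∧ x = pairN (l.getD 1 empty) y
  | .dom, l, x => ∃ a y, l.getD 0 empty = funN a y ∧ x = ordN a
  | .succ, l, x => ∃ b, dK (l.getD 0 empty) < b ∧ x = ordN b
  | .diff, l, x => ∃ a y a' y' b, l.getD 0 empty = funN a y ∧ l.getD 1 empty = funN a' y' ∧
      b < a ∧ ¬ (b < a' ∧ y b = y' b) ∧ x = ordN b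
  | .res, l, x => ∃ a y, l.getD 0 empty = funN a y ∧ x = funN (dK (l.getD 1 empty)) y
  | .col, l, x => ∃ g, (∀ b ∈ Iio (dK (l.getD 0 empty)), g b < MP_f7d510_lc.l0) ∧
      InjOn g (Iio (dK (l.getD 0 empty))) ∧ x = funN (dK (l.getD 0 empty)) g
  | .cfw, l, x => ∃ b < w0, dK (l.getD 0 empty) < cf b ∧ x = ordN b
  | .fv, l, x => x = ordN (MP_f7d510_lc.fv (l.getD 1 empty) (dC (l.getD 0 empty))
      (dK (l.getD 2 empty)))
  | .miss L, l, x => ∃ c ∈ Lset L, (∀ b < dK (l.getD 2 empty),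
      MP_f7d510_lc.fv (l.getD 1 empty) (dC (l.getD 0 empty)) b ≠ c) ∧ x = ordN c
  | .lev, l, x => x = levN (dC (l.getD 0 empty)) (dK (l.getD 1 empty))
  | .inj, l, x => ∃ h : (K → K) → K,
      (∀ y ∈ Q (dC (l.getD 0 empty)) (dK (l.getD 1 empty)), h y < MP_f7d510_lc.l0) ∧
      InjOn h (Q (dC (l.getD 0 empty)) (dK (l.getD 1 empty))) ∧
      x = injN (dC (l.getD 0 empty)) (dK (l.getD 1 empty)) h
  | .node, l, x => ∃ y, InT (dC (l.getD 0 empty)).1 (dK (l.getD 1 empty)) y ∧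
      x = funN (dK (l.getD 1 empty)) y
  | .br, l, x => x = BN (idx (l.getD 0 empty))
  | .brn, l, x => ∃ y, InB (idx (l.getD 1 empty)) (dC (l.getD 0 empty)).1 (dK (l.getD 2 empty)) y ∧
      x = funN (dK (l.getD 2 empty)) y
  | .alt1, l, x => ∃ b, (∀ r ≤ dC (l.getD 0 empty), ¬ ∃ c, Vb (l.getD 1 empty) r b c) ∧ x = ordN b
  | .alt3, l, x => ∃ a y, (∀ b < a, Vb (l.getD 1 empty) (dC (l.getD 0 empty)) b (y b)) ∧
      a ≤ (dC (l.getD 0 empty)).1.ht ∧ ¬ InT (dC (l.getD 0 empty)).1 a y ∧ x = funN a y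
  | .alt4, l, x => ∃ a', (∀ z < dK (l.getD 2 empty), ∃ b < a', ∃ c i,
      Vb (l.getD 1 empty) (dC (l.getD 0 empty)) b c ∧ dec c = some (z, i)) ∧ x = ordN a'
  | .vb, l, x => ∃ a y, dK (l.getD 2 empty) < a ∧ y (dK (l.getD 2 empty)) = dK (l.getD 3 empty) ∧
      FMem (funN a y) (l.getD 1 empty) (dC (l.getD 0 empty)) ∧ x = funN a y
  | .lab, l, x => ∃ b < dK (l.getD 3 empty), ∃ c i,
      Vb (l.getD 1 empty) (dC (l.getD 0 empty)) b c ∧ dec c = some (dK (l.getD 2 empty), i) ∧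
      x = pairN (ordN b) (ordN c)

inductive UD : Type
  | dec | ht | br | alt
  deriving Countable

def UD.ev : UD → List (Name Cnd) → Set Cnd
  | .dec, l => {q | ∀ b < dK (l.getD 1 empty), (∃ c, Inv (l.getD 0 empty) q b c) ∨
      ∀ r ≤ q, ¬ ∃ c, Inv (l.getD 0 empty) r b c}
  | .ht, l => {q | dK (l.getD 0 empty) < q.1.ht}
  | .br, l => {q | dK (l.getD 1 empty) < q.1.ht ∧ idx (l.getD 0 empty) ∈ q.1.supp}
  | .alt, l => {q | Alt1 (Vb (l.getD 0 empty)) q ∨ Alt3 (Vb (l.getD 0 empty)) q ∨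
      Alt4 (Vb (l.getD 0 empty)) q (dK (l.getD 1 empty))}

section model

variable (C : Ctx UR.ev UD.ev)

theorem ufun (b : UR) {l : List (Name Cnd)} (hl : ∀ x ∈ l, x ∈ C.N) {y : Name Cnd}
    (h : ∀ x, b.ev l x ↔ x = y) : y ∈ C.N := by
  obtain ⟨x, hx, e⟩ := C.uwit b hl ⟨y, (h y).2 rfl⟩
  rwa [(h x).1 e] at hx

/-- The ordinal of the model denoted by `a`. -/
noncomputable def pi (a : K) : ZFSet := C.val (ordN a)

noncomputable def kap : ZFSet := C.val (setN ordN)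

theorem mem_pi {a : K} {z : ZFSet} : z ∈ pi C a ↔ ∃ b < a, ordN b ∈ C.N ∧ z = pi C b := by
  rw [pi, ordN_eq, C.mem_val]
  exact ⟨fun ⟨i, h1, _, h2⟩ => ⟨i.1, i.2, h1, h2⟩, fun ⟨b, h, h1, h2⟩ => ⟨⟨b, h⟩, h1, C.top, h2⟩⟩

theorem mem_kap {z : ZFSet} : z ∈ kap C ↔ ∃ b, ordN b ∈ C.N ∧ z = pi C b := by
  rw [kap, C.mem_val]
  exact ⟨fun ⟨i, h1, _, h2⟩ => ⟨i, h1, h2⟩, fun ⟨b, h1, h2⟩ => ⟨b, h1, C.top, h2⟩⟩

theorem pi_mem_kap {a : K} (h : ordN a ∈ C.N) : pi C a ∈ kap C := (mem_kap C).2 ⟨a, h, rfl⟩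

theorem pi_inj {a b : K} (ha : ordN a ∈ C.N) (hb : ordN b ∈ C.N) (h : pi C a = pi C b) : a = b := by
  obtain ⟨p, _, h⟩ := (C.val_eq_iff ha hb).1 h
  exact feq_ordN h

theorem pi_mem_pi {a b : K} (hb : ordN b ∈ C.N) : pi C b ∈ pi C a ↔ b < a := by
  rw [mem_pi]
  exact ⟨fun ⟨c, h1, h2, h3⟩ => pi_inj C hb h2 h3 ▸ h1, fun h => ⟨b, h, hb, rfl⟩⟩

theorem kap_ord : (kap C).IsOrdinal := by
  constructor
  · intro x hx y hy
    obtain ⟨a, -, rfl⟩ := (mem_kap C).1 hx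
    obtain ⟨b, -, h, rfl⟩ := (mem_pi C).1 hy
    exact pi_mem_kap C h
  · intro y z w h1 h2 h3
    obtain ⟨a, -, rfl⟩ := (mem_kap C).1 h3
    obtain ⟨b, h4, -, rfl⟩ := (mem_pi C).1 h2
    obtain ⟨c, h5, h, rfl⟩ := (mem_pi C).1 h1
    exact (pi_mem_pi C h).2 (h5.trans h4)

theorem kap_mem : kap C ∈ C.M := C.val_mem_M (ufun C .kap C.nil fun _ => Iff.rfl)

theorem l0_mem : ordN l0 ∈ C.N := ufun C .l0 C.nil fun _ => Iff.rfl

theorem succ_mem {a : K} (h : ordN a ∈ C.N) : ∃ b, a < b ∧ ordN b ∈ C.N := by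
  obtain ⟨x, hx, b, h1, rfl⟩ := C.uwit .succ (C.one h)
    ((exists_gt a).elim fun b hb => ⟨_, b, by simpa using hb, rfl⟩)
  exact ⟨b, by simpa using h1, hx⟩

theorem mem_grN {ι : Type} {A B : ι → Name Cnd} {z : ZFSet} : z ∈ C.val (grN A B) ↔
    ∃ i, A i ∈ C.N ∧ B i ∈ C.N ∧ z = ZFSet.pair (C.val (A i)) (C.val (B i)) := by
  rw [C.mem_val]
  constructor
  · rintro ⟨i, h1, -, h2⟩
    exact ⟨i, C.pairN_left h1, C.pairN_right h1, h2.trans (C.val_pairN h1)⟩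
  · rintro ⟨i, h1, h2, h3⟩
    exact ⟨i, C.pair_memN h1 h2, C.top, h3.trans (C.val_pairN (C.pair_memN h1 h2)).symm⟩

theorem app {ι : Type} {A B : ι → Name Cnd} (h : grN A B ∈ C.N) {i : ι} (hi : A i ∈ C.N) :
    ∃ j, A j = A i ∧ B j ∈ C.N := by
  obtain ⟨x, hx, j, y, rfl, h2⟩ := C.uwit .app (C.two h hi) ⟨_, i, B i, rfl, rfl⟩
  exact ⟨j, (pairN_inj h2).1, C.pairN_right hx⟩

theorem mem_funN {a : K} {x : K → K} {z : ZFSet} : z ∈ C.val (funN a x) ↔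
    ∃ b < a, ordN b ∈ C.N ∧ ordN (x b) ∈ C.N ∧ z = ZFSet.pair (pi C b) (pi C (x b)) := by
  rw [funN, mem_grN]
  exact ⟨fun ⟨i, h⟩ => ⟨i.1, i.2, h⟩, fun ⟨b, h1, h⟩ => ⟨⟨b, h1⟩, h⟩⟩

theorem fun_app {a b : K} {x : K → K} (h : funN a x ∈ C.N) (hb : b < a) (hb' : ordN b ∈ C.N) :
    ordN (x b) ∈ C.N := by
  obtain ⟨j, h1, h2⟩ := app C h (i := ⟨b, hb⟩) hb'
  rwa [ordN_inj h1] at h2

theorem fun_pair {a b : K} {x : K → K} (h : funN a x ∈ C.N) (hb : b < a) (hb' : ordN b ∈ C.N) :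
    ZFSet.pair (pi C b) (pi C (x b)) ∈ C.val (funN a x) :=
  (mem_funN C).2 ⟨b, hb, hb', fun_app C h hb hb', rfl⟩

theorem pair_fun {a b c : K} {x : K → K} (hb : ordN b ∈ C.N) (hc : ordN c ∈ C.N)
    (h : ZFSet.pair (pi C b) (pi C c) ∈ C.val (funN a x)) : b < a ∧ x b = c := by
  obtain ⟨b', h1, h2, h3, h4⟩ := (mem_funN C).1 h
  obtain rfl := pi_inj C hb h2 (ZFSet.pair_inj.1 h4).1
  exact ⟨h1, (pi_inj C hc h3 (ZFSet.pair_inj.1 h4).2).symm⟩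

theorem fun_dom {a : K} {x : K → K} (h : funN a x ∈ C.N) : ordN a ∈ C.N := by
  obtain ⟨_, hx, a', y, h1, rfl⟩ := C.uwit .dom (C.one h) ⟨_, a, x, rfl, rfl⟩
  rwa [(funN_inj h1).1]

theorem fun_res {a b : K} {x : K → K} (h : funN a x ∈ C.N) (hb : b ≤ a) (hb' : ordN b ∈ C.N) :
    funN b x ∈ C.N := by
  obtain ⟨_, hx, a', y, h1, rfl⟩ := C.uwit .res (C.two h hb') ⟨_, a, x, rfl, rfl⟩
  simp only [List.getD_cons_succ, List.getD_cons_zero, dK_ordN] at hx h1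
  rwa [((funN_inj h1).2.mono hb).funN]

theorem isFunc_fun {a : K} {x : K → K} (h : funN a x ∈ C.N) {u : ZFSet}
    (hu : ∀ b < a, ordN (x b) ∈ C.N → pi C (x b) ∈ u) : ZFSet.IsFunc (pi C a) u (C.val (funN a x)) := by
  refine ⟨fun z hz => ?_, fun z hz => ?_⟩
  · obtain ⟨b, h1, h2, h3, rfl⟩ := (mem_funN C).1 hz
    exact ZFSet.pair_mem_prod.2 ⟨(pi_mem_pi C h2).2 h1, hu b h1 h3⟩
  · obtain ⟨b, h1, h2, rfl⟩ := (mem_pi C).1 hz
    refine ⟨_, fun_pair C h h1 h2, fun y hy => ?_⟩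
    obtain ⟨b', -, h3, -, h4⟩ := (mem_funN C).1 hy
    obtain rfl := pi_inj C h2 h3 (ZFSet.pair_inj.1 h4).1
    exact (ZFSet.pair_inj.1 h4).2

theorem isFunc_kap {a : K} {x : K → K} (h : funN a x ∈ C.N) :
    ZFSet.IsFunc (pi C a) (kap C) (C.val (funN a x)) :=
  isFunc_fun C h fun _ _ h => pi_mem_kap C h

theorem fun_sub {a a' : K} {x y : K → K} (h : funN a x ∈ C.N) (h' : funN a' y ∈ C.N)
    (hs : C.val (funN a x) ⊆ C.val (funN a' y)) : a ≤ a' ∧ Agree a x y := by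
  have : ∀ b < a, b < a' ∧ x b = y b := by
    intro b hb
    by_contra hc
    obtain ⟨_, hx, a1, x1, a2, y1, c, h1, h2, h3, h4, rfl⟩ := C.uwit .diff (C.two h h')
      ⟨_, a, x, a', y, b, rfl, rfl, hb, hc, rfl⟩
    obtain ⟨rfl, e1⟩ := funN_inj h1
    obtain ⟨rfl, e2⟩ := funN_inj h2
    obtain ⟨e3, e4⟩ := pair_fun C hx (fun_app C h h3 hx) (hs (fun_pair C h h3 hx))
    exact h4 ⟨e3, by rw [← e1 c h3, ← e2 c e3, e4]⟩
  exact ⟨not_lt.1 fun h => lt_irrefl _ (this _ h).1, fun b hb => (this b hb).2⟩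

theorem sub_fun {a a' : K} {x y : K → K} (h : a ≤ a') (h' : Agree a x y) :
    C.val (funN a x) ⊆ C.val (funN a' y) := by
  intro z hz
  obtain ⟨b, h1, h2, h3, rfl⟩ := (mem_funN C).1 hz
  rw [h' b h1] at h3 ⊢
  exact (mem_funN C).2 ⟨b, h1.trans_le h, h2, h3, rfl⟩

theorem dom_eq {a a' : K} {x : K → K} (ha : ordN a ∈ C.N) (h : funN a' x ∈ C.N)
    (hf : ZFSet.IsFunc (pi C a) (kap C) (C.val (funN a' x))) : a' = a := by
  have h' := isFunc_kap C h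
  refine pi_inj C (fun_dom C h) ha (ZFSet.ext fun z => ⟨fun hz => ?_, fun hz => ?_⟩)
  · obtain ⟨w, hw, -⟩ := h'.2 z hz
    exact (ZFSet.pair_mem_prod.1 (hf.1 hw)).1
  · obtain ⟨w, hw, -⟩ := hf.2 z hz
    exact (ZFSet.pair_mem_prod.1 (h'.1 hw)).1

theorem pair_val {a b : K} (ha : ordN a ∈ C.N) (hb : ordN b ∈ C.N) {σ : Name Cnd} (hσ : σ ∈ C.N) :
    ZFSet.pair (pi C a) (pi C b) ∈ C.val σ ↔ ∃ p ∈ C.G, FMem (pairN (ordN a) (ordN b)) σ p := by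
  rw [← C.val_mem_iff (C.pair_memN ha hb) hσ, C.val_pairN (C.pair_memN ha hb)]
  rfl

theorem no_inj (L : Bool) {a : K} (ha : ordN a ∈ C.N) (hL : #(Iio a) < #(Lset L)) {u : ZFSet}
    (hu : ∀ c ∈ Lset L, ordN c ∈ C.N → pi C c ∈ u) : ¬ Inj C.M u (pi C a) := by
  rintro ⟨f, hf, h1, h2⟩
  obtain ⟨σ, hσ, rfl⟩ := C.mem_M.1 hf
  obtain ⟨p, hp, hd⟩ := C.udense .dec (C.two hσ ha) C.top fun q _ => by
    obtain ⟨r, r1, r2⟩ := baire (small a)
      (fun b q => (∃ c, Inv σ q b.1 c) ∨ ∀ r ≤ q, ¬ ∃ c, Inv σ r b.1 c)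
      (fun b p q h hq => h.imp (fun h => h.imp fun _ h => FMem.mono h hq)
        fun h r hr => h r (hr.trans hq)) q fun b q _ => by
          by_cases h : ∃ r ≤ q, ∃ c, Inv σ r b.1 c
          · obtain ⟨r, h1, h2⟩ := h
            exact ⟨r, h1, Or.inl h2⟩
          · exact ⟨q, le_rfl, Or.inr fun r hr h' => h ⟨r, hr, h'⟩⟩
    refine ⟨r, r1, fun b hb => r2 ⟨b, ?_⟩⟩
    simpa using hb
  obtain ⟨q, hq, q1, q2⟩ := C.cof p hp
  have h3 : ∃ c ∈ Lset L, ∀ b < a, fv σ q b ≠ c := by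
    by_contra hc
    push Not at hc
    have : Lset L ⊆ fv σ q '' Iio a := fun c h => hc c h
    exact absurd ((mk_le_mk_of_subset this).trans mk_image_le) (not_le.2 hL)
  obtain ⟨_, hx, c, c1, c2, rfl⟩ := C.uwit (.miss L) (C.three q2 hσ ha)
    (h3.elim fun c hc => ⟨_, c, hc.1, by simpa using hc.2, rfl⟩)
  simp only [List.getD_cons_succ, List.getD_cons_zero, dK_ordN, dC_cN] at c2
  obtain ⟨w, hw, -⟩ := h1.2 _ (hu c c1 hx)
  obtain ⟨b, b1, b2, rfl⟩ := (mem_pi C).1 (ZFSet.pair_mem_prod.1 (h1.1 hw)).2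
  obtain ⟨r, hr, r1⟩ := (pair_val C hx b2 hσ).1 hw
  have h4 : ∃ c, Inv σ q b c := by
    rcases hd b (by simpa using b1) with ⟨c, h⟩ | h
    · exact ⟨c, FMem.mono h q1⟩
    · obtain ⟨s, _, s1, s2⟩ := C.dir p hp r hr
      exact (h s s1 ⟨c, r1.mono s2⟩).elim
  have h5 : ordN (fv σ q b) ∈ C.N := ufun C .fv (C.three q2 hσ b2) fun _ => by simp [UR.ev]
  exact c2 b b1 (pi_inj C h5 hx (h2 _ _ _ ((pair_val C h5 b2 hσ).2 ⟨q, hq, fv_spec h4⟩) hw))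

theorem collapse {a : K} (ha : ordN a ∈ C.N) : Inj C.M (pi C a) (pi C l0) := by
  obtain ⟨_, hx, g, g1, g2, rfl⟩ := C.uwit .col (C.one ha)
    ((exists_inj (small a)).elim fun g hg => ⟨_, g, by simpa using hg.1, by simpa using hg.2, rfl⟩)
  simp only [List.getD_cons_zero, dK_ordN] at hx g1 g2
  refine ⟨_, C.val_mem_M hx, isFunc_fun C hx fun b hb h => (pi_mem_pi C h).2 (g1 b hb), ?_⟩
  intro x y z h1 h2
  obtain ⟨b, b1, -, b2, b3⟩ := (mem_funN C).1 h1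
  obtain ⟨c, c1, -, c2, c3⟩ := (mem_funN C).1 h2
  rw [ZFSet.pair_inj] at b3 c3
  rw [b3.1, c3.1, g2 b1 c1 (pi_inj C b2 c2 (b3.2.symm.trans c3.2))]

theorem succCard : SuccCard C.M (pi C l0) (kap C) := by
  refine ⟨⟨kap_ord C, fun b hb => ?_⟩, pi_mem_kap C (l0_mem C), fun a ha => ?_⟩
  · obtain ⟨a, ha, rfl⟩ := (mem_kap C).1 hb
    refine no_inj C false ha ?_ fun c _ h => pi_mem_kap C h
    simpa [Lset] using (small a).trans_lt lam_lt_K
  · obtain ⟨a, ha', rfl⟩ := (mem_kap C).1 ha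
    clear ha
    have ha := ha'
    exact collapse C ha

theorem singular : Singular C.M (pi C l0) := by
  have ho := (kap_ord C).mem (pi_mem_kap C (l0_mem C))
  have hc : funN w0 cf ∈ C.N := ufun C .cof C.nil fun _ => Iff.rfl
  have hf := isFunc_fun C hc (u := pi C l0) fun b hb h => (pi_mem_pi C h).2 (l0_spec.2.2.2.1 b hb)
  have hw := (pi_mem_pi C (fun_dom C hc)).2 l0_spec.2.2.1
  have hu : ∀ x ∈ pi C l0, ∃ y z, ZFSet.pair y z ∈ C.val (funN w0 cf) ∧ x ∈ z := by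
    intro x hx
    obtain ⟨a, a1, a2, rfl⟩ := (mem_pi C).1 hx
    obtain ⟨_, hx, b, b1, b2, rfl⟩ := C.uwit .cfw (C.one a2)
      ((l0_spec.2.2.2.2 a a1).elim fun b hb => ⟨_, b, hb.1, by simpa using hb.2, rfl⟩)
    exact ⟨_, _, fun_pair C hc b1 hx, (pi_mem_pi C a2).2 (by simpa using b2)⟩
  refine ⟨⟨ho, fun b hb => ?_⟩, fun x hx => ?_, _, hw, _, C.val_mem_M hc, hf, hu⟩
  · obtain ⟨a, a1, a2, rfl⟩ := (mem_pi C).1 hb
    refine no_inj C true a2 ?_ fun c h1 h => (pi_mem_pi C h).2 h1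
    exact (l0_spec.2.1 a a1).trans_eq l0_spec.1.symm
  · obtain ⟨n, rfl⟩ := mem_omega.1 hx
    clear hx
    induction n with
    | zero => exact ZFSet.isOrdinal_empty.mem_of_subset_of_mem ho (ZFSet.empty_subset _) hw
    | succ n ih =>
      obtain ⟨y, z, h1, h2⟩ := hu _ ih
      have h3 := (ZFSet.pair_mem_prod.1 (hf.1 h1)).2
      refine (ZFSet.isOrdinal_succ (ho.mem ih)).mem_of_subset_of_mem ho (fun u hu => ?_) h3
      rcases ZFSet.mem_insert_iff.1 hu with rfl | hu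
      exacts [h2, (ho.mem h3).mem_trans hu h2]

noncomputable def tree : ZFSet := C.val TN

theorem tree_mem : tree C ∈ C.M := C.val_mem_M (ufun C .tree C.nil fun _ => Iff.rfl)

theorem mem_tree {t : ZFSet} : t ∈ tree C ↔
    ∃ p ∈ C.G, ∃ a x, InT p.1 a x ∧ funN a x ∈ C.N ∧ t = C.val (funN a x) := by
  rw [tree, C.mem_val]
  exact ⟨fun ⟨⟨⟨p, a, x⟩, h⟩, h1, h2, h3⟩ => ⟨p, h2, a, x, h, h1, h3⟩,
    fun ⟨p, h2, a, x, h, h1, h3⟩ => ⟨⟨⟨p, a, x⟩, h⟩, h1, h2, h3⟩⟩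

theorem kTree : KTree C.M (kap C) (tree C) := by
  constructor
  · intro t ht
    obtain ⟨p, hp, a, x, h1, h2, rfl⟩ := (mem_tree C).1 ht
    refine ⟨_, pi_mem_kap C (fun_dom C h2), isFunc_kap C h2, fun b hb => ?_⟩
    obtain ⟨b, b1, b2, rfl⟩ := (mem_pi C).1 hb
    have h3 := fun_res C h2 b1.le b2
    exact ⟨_, (mem_tree C).2 ⟨p, hp, b, x, h1.res b1.le (.refl _ _), h3, rfl⟩, isFunc_kap C h3,
      sub_fun C b1.le (.refl _ _)⟩
  · intro a ha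
    obtain ⟨a, ha', rfl⟩ := (mem_kap C).1 ha
    clear ha
    have ha := ha'
    obtain ⟨p, hp, hd⟩ := C.udense .ht (C.one ha) C.top fun q _ => ht_dense _ q
    obtain ⟨q, hq, q1, q2⟩ := C.cof p hp
    have h1 : a ≤ q.1.ht := (show a < p.1.ht by simpa [UD.ev] using hd).le.trans q1.ht
    have hL : levN q a ∈ C.N := ufun C .lev (C.two q2 ha) fun _ => by simp [UR.ev]
    have m1 : ∀ t, t ∈ C.val (levN q a) ↔ ∃ y ∈ Q q a, funN a y ∈ C.N ∧ t = C.val (funN a y) := by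
      intro t
      rw [C.mem_val]
      exact ⟨fun ⟨i, h1, _, h2⟩ => ⟨i.1, i.2, h1, h2⟩, fun ⟨y, h, h1, h2⟩ => ⟨⟨y, h⟩, h1, C.top, h2⟩⟩
    have m2 : ∀ t, t ∈ C.val (levN q a) ↔ t ∈ tree C ∧ ZFSet.IsFunc (pi C a) (kap C) t := by
      intro t
      rw [m1]
      constructor
      · rintro ⟨_, ⟨s, hs, rfl⟩, h2, rfl⟩
        exact ⟨(mem_tree C).2 ⟨q, hq, a, _, ⟨h1, s, hs, agree_trunc _ _⟩, h2, rfl⟩, isFunc_kap C h2⟩
      · rintro ⟨ht, hf⟩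
        obtain ⟨r, hr, a', x, h2, h3, rfl⟩ := (mem_tree C).1 ht
        obtain rfl := dom_eq C ha h3 hf
        obtain ⟨s, _, s1, s2⟩ := C.dir q hq r hr
        obtain ⟨-, u, u1, u2⟩ := (h2.up s2).down s1 h1
        have e := (u2.trans (agree_trunc a' u.1).symm).funN
        exact ⟨_, ⟨u, u1, rfl⟩, e ▸ h3, e ▸ rfl⟩
    refine ⟨_, C.val_mem_M hL, m2, ?_, _, pi_mem_kap C (l0_mem C), ?_⟩
    · obtain ⟨_, hx, y, y1, rfl⟩ := C.uwit .node (C.two q2 ha)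
        (q.2.ne.elim fun s hs => ⟨_, s.1, by simpa using ⟨h1, s, hs, .refl _ _⟩, rfl⟩)
      simp only [List.getD_cons_succ, List.getD_cons_zero, dK_ordN, dC_cN] at hx y1
      intro e
      exact ZFSet.notMem_empty _ (e ▸ (m2 _).2 ⟨(mem_tree C).2 ⟨q, hq, a, y, y1, hx, rfl⟩,
        isFunc_kap C hx⟩)
    · obtain ⟨_, hx, h, g1, g2, rfl⟩ := C.uwit .inj (C.two q2 ha)
        ((exists_inj (s := Q q a) (mk_image_le.trans q.2.small)).elim fun g hg =>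
          ⟨_, g, by simpa using hg.1, by simpa using hg.2, rfl⟩)
      simp only [List.getD_cons_succ, List.getD_cons_zero, dC_cN, dK_ordN] at hx g1 g2
      unfold injN at hx
      have m3 : ∀ y ∈ Q q a, ∀ z ∈ Q q a, Agree a y z → y = z := by
        rintro _ ⟨s, -, rfl⟩ _ ⟨t, -, rfl⟩ h
        exact (trunc_trunc _ _).symm.trans (h.trunc.trans (trunc_trunc _ _))
      refine ⟨_, C.val_mem_M hx, ⟨fun z hz => ?_, fun t ht => ?_⟩, fun x y z h2 h3 => ?_⟩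
      · obtain ⟨y, y1, y2, rfl⟩ := (mem_grN C).1 hz
        exact ZFSet.pair_mem_prod.2 ⟨(m1 _).2 ⟨y.1, y.2, y1, rfl⟩, (pi_mem_pi C y2).2 (g1 _ y.2)⟩
      · obtain ⟨y, y1, y2, rfl⟩ := (m1 t).1 ht
        obtain ⟨j, j1, j2⟩ := app C hx (i := ⟨y, y1⟩) y2
        obtain rfl : j = ⟨y, y1⟩ := Subtype.ext (m3 _ j.2 _ y1 (funN_inj j1).2)
        refine ⟨_, (mem_grN C).2 ⟨_, y2, j2, rfl⟩, fun w hw => ?_⟩
        obtain ⟨z, z1, -, z2⟩ := (mem_grN C).1 hw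
        rw [ZFSet.pair_inj] at z2
        rw [z2.2, ← m3 _ y1 _ z.2 (fun_sub C y2 z1 (z2.1 ▸ fun _ h => h)).2]
      · obtain ⟨b, -, b2, b3⟩ := (mem_grN C).1 h2
        obtain ⟨c, -, c2, c3⟩ := (mem_grN C).1 h3
        rw [ZFSet.pair_inj] at b3 c3
        rw [b3.1, c3.1, g2 b.2 c.2 (pi_inj C b2 c2 (b3.2.symm.trans c3.2))]

theorem mem_DN {i : Bool} {c z : K} (hc : ordN c ∈ C.N) (hz : ordN z ∈ C.N) :
    ZFSet.pair (pi C c) (pi C z) ∈ C.val (DN i) ↔ dec c = some (z, i) := by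
  rw [DN, mem_grN]
  constructor
  · rintro ⟨⟨⟨c', z'⟩, h⟩, h1, h2, h3⟩
    rw [ZFSet.pair_inj] at h3
    rw [pi_inj C hc h1 h3.1, pi_inj C hz h2 h3.2]
    exact h
  · exact fun h => ⟨⟨(c, z), h⟩, hc, hz, rfl⟩

theorem vb_node {σ : Name Cnd} (hσ : σ ∈ C.N) {q : Cnd} (hq : q ∈ C.G) (q2 : cN q ∈ C.N) {b c : K}
    (hb : ordN b ∈ C.N) (hc : ordN c ∈ C.N) (h : Vb σ q b c) :
    ∃ t ∈ C.val σ, ZFSet.pair (pi C b) (pi C c) ∈ t := by
  obtain ⟨_, hx, a, y, y1, y2, y3, rfl⟩ := C.uwit .vb (C.cons q2 (C.three hσ hb hc))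
    (h.elim fun a h => h.elim fun x h => ⟨_, a, x, by simpa using h.1, by simpa using h.2.1,
      by simpa using h.2.2, rfl⟩)
  simp only [List.getD_cons_succ, List.getD_cons_zero, dK_ordN, dC_cN] at y1 y2 y3
  exact ⟨_, (C.val_mem_iff hx hσ).2 ⟨q, hq, y3⟩, y2 ▸ fun_pair C hx y1 hb⟩

theorem labels (B : ZFSet) (hB : B ∈ C.M) (hb : Branch (kap C) (tree C) B) (a : ZFSet)
    (ha : a ∈ kap C) : ∃ a' ∈ kap C, ∀ z ∈ a, ∃ b ∈ a',
      Hit (kap C) B (C.val (DN false)) b z ∨ Hit (kap C) B (C.val (DN true)) b z := by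
  obtain ⟨σ, hσ, rfl⟩ := C.mem_M.1 hB
  obtain ⟨a, ha', rfl⟩ := (mem_kap C).1 ha
  clear ha
  have ha := ha'
  have lev : ∀ a, ordN a ∈ C.N → ∃ r ∈ C.G, ∃ y, InT r.1 a y ∧ funN a y ∈ C.N ∧
      C.val (funN a y) ∈ C.val σ := by
    intro a ha
    obtain ⟨t, t1, t2⟩ := hb.2.2.2 _ (pi_mem_kap C ha)
    obtain ⟨r, hr, a', y, h2, h3, rfl⟩ := (mem_tree C).1 (hb.1 t1)
    obtain rfl := dom_eq C ha h3 t2
    exact ⟨r, hr, y, h2, h3, t1⟩
  obtain ⟨p, hp, hd⟩ := C.udense .alt (C.two hσ ha) C.top fun q _ =>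
    sealed_all _ (Vb.mono σ) q _
  obtain ⟨q, hq, q1, q2⟩ := C.cof p hp
  rcases hd with ⟨b, h⟩ | ⟨a', x, h1, h2, h3⟩ | ⟨a', h⟩
  · exfalso
    obtain ⟨_, hx, b, h, rfl⟩ := C.uwit .alt1 (C.two q2 hσ)
      ⟨_, b, by
        simp only [List.getD_cons_zero, dC_cN]
        exact fun r hr => h r (hr.trans q1), rfl⟩
    simp only [List.getD_cons_succ, List.getD_cons_zero, dC_cN] at h
    obtain ⟨a', a1, a2⟩ := succ_mem C hx
    obtain ⟨-, -, y, -, y1, y2⟩ := lev a' a2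
    obtain ⟨r, hr, r1⟩ := (C.val_mem_iff y1 hσ).1 y2
    obtain ⟨s, _, s1, s2⟩ := C.dir q hq r hr
    exact h s s1 ⟨_, a', y, a1, rfl, r1.mono s2⟩
  · exfalso
    obtain ⟨_, hx, a', x, h1, h2, h3, rfl⟩ := C.uwit .alt3 (C.two q2 hσ)
      ⟨_, a', x, by
        simp only [List.getD_cons_zero, dC_cN]
        exact fun b hb => (h1 b hb).mono _ _ _ _ _ q1, by
        simp only [List.getD_cons_zero, dC_cN]
        exact h2.trans q1.ht, by
        simp only [List.getD_cons_zero, dC_cN]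
        exact fun h => h3 (h.down q1 h2), rfl⟩
    simp only [List.getD_cons_succ, List.getD_cons_zero, dC_cN] at h1 h2 h3
    obtain ⟨r, hr, y, y0, y1, y2⟩ := lev a' (fun_dom C hx)
    have : C.val (funN a' x) ⊆ C.val (funN a' y) := by
      intro z hz
      obtain ⟨b, b1, b2, b3, rfl⟩ := (mem_funN C).1 hz
      obtain ⟨t, t1, t2⟩ := vb_node C hσ hq q2 b2 b3 (h1 b b1)
      rcases hb.2.1 t t1 _ y2 with h | h
      · exact h t2
      · obtain ⟨_, _, a2, u, -, u1, rfl⟩ := (mem_tree C).1 (hb.1 t1)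
        have e1 := pair_fun C b2 b3 t2
        have e2 := pair_fun C b2 (fun_app C y1 b1 b2) (h (fun_pair C y1 b1 b2))
        rw [← e1.2, e2.2]
        exact fun_pair C y1 b1 b2
    obtain ⟨s, _, s1, s2⟩ := C.dir q hq r hr
    exact h3 (((y0.up s2).down s1 h2).res le_rfl (fun_sub C hx y1 this).2)
  · obtain ⟨_, hx, a', h, rfl⟩ := C.uwit .alt4 (C.three q2 hσ ha)
      ⟨_, a', by
        simp only [List.getD_cons_zero, dC_cN]
        intro z hz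
        obtain ⟨b, b1, c, i, b2, b3⟩ := h z hz
        exact ⟨b, b1, c, i, b2.mono _ _ _ _ _ q1, b3⟩, rfl⟩
    simp only [List.getD_cons_succ, List.getD_cons_zero, dC_cN, dK_ordN] at h
    refine ⟨_, pi_mem_kap C hx, fun z hz => ?_⟩
    obtain ⟨z, z1, z2, rfl⟩ := (mem_pi C).1 hz
    obtain ⟨b, b1, c, i, b2, b3⟩ := h z z1
    obtain ⟨_, hy, b, b1, c, i, b2, b3, rfl⟩ := C.uwit .lab (C.cons q2 (C.three hσ z2 hx))
      ⟨_, b, by simpa using b1, c, i, by simpa using b2, by simpa using b3, rfl⟩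
    simp only [List.getD_cons_succ, List.getD_cons_zero, dC_cN, dK_ordN] at b1 b2 b3
    have c1 := C.pairN_left hy
    have c2 := C.pairN_right hy
    obtain ⟨t, t1, t2⟩ := vb_node C hσ hq q2 c1 c2 b2
    have : Hit (kap C) (C.val σ) (C.val (DN i)) (pi C b) (pi C z) :=
      ⟨t, t1, _, pi_mem_kap C c2, t2, (mem_DN C c2 z2).2 b3⟩
    refine ⟨_, (pi_mem_pi C c1).2 b1, ?_⟩
    cases i
    exacts [Or.inl this, Or.inr this]

theorem mem_BN {ξ : I} {t : ZFSet} : t ∈ C.val (BN ξ) ↔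
    ∃ p ∈ C.G, ∃ a x, InB ξ p.1 a x ∧ funN a x ∈ C.N ∧ t = C.val (funN a x) := by
  rw [C.mem_val]
  exact ⟨fun ⟨⟨⟨p, a, x⟩, h⟩, h1, h2, h3⟩ => ⟨p, h2, a, x, h, h1, h3⟩,
    fun ⟨p, h2, a, x, h, h1, h3⟩ => ⟨⟨⟨p, a, x⟩, h⟩, h1, h2, h3⟩⟩

theorem onto (g : ZFSet) (hg : g ∈ C.M) : ∃ B ∈ C.M, Branch (kap C) (tree C) B ∧
    ∀ z ∈ kap C, ∀ b, (Hit (kap C) B (C.val (DN true)) b z → ZFSet.pair z {∅} ∈ g) ∧
      (Hit (kap C) B (C.val (DN false)) b z → ZFSet.pair z {∅} ∉ g) := by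
  obtain ⟨σ, hσ, rfl⟩ := C.mem_M.1 hg
  have hB : BN (idx σ) ∈ C.N := ufun C .br (C.one hσ) fun _ => Iff.rfl
  refine ⟨_, C.val_mem_M hB, ⟨fun t ht => ?_, fun s hs t ht => ?_, fun t ht s hs h => ?_,
    fun a ha => ?_⟩, fun z hz b => ?_⟩
  · obtain ⟨p, hp, a, x, ⟨h1, y, h2, h3⟩, h4, rfl⟩ := (mem_BN C).1 ht
    exact (mem_tree C).2 ⟨p, hp, a, x, ⟨h1, _, h2, h3⟩, h4, rfl⟩
  · obtain ⟨p, hp, a, x, ⟨h1, y, h2, h3⟩, -, rfl⟩ := (mem_BN C).1 hs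
    obtain ⟨p', hp', a', x', ⟨h1', y', h2', h3'⟩, -, rfl⟩ := (mem_BN C).1 ht
    obtain ⟨r, _, r1, r2⟩ := C.dir p hp p' hp'
    obtain ⟨u, u1, u2⟩ := Le.prom r1 h2
    obtain ⟨u', u1', u2'⟩ := Le.prom r2 h2'
    have e := r.2.fn _ _ _ u1 u1'
    have e' : ∀ c ≤ a, c ≤ a' → Agree c x x' := fun c c1 c2 =>
      ((((h3.mono c1).trans (u2.mono (c1.trans h1)).symm).trans
        (e.mono ((c1.trans h1).trans r1.ht))).trans (u2'.mono (c2.trans h1'))).trans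
          (h3'.mono c2).symm
    rcases le_total a a' with h | h
    · exact Or.inl (sub_fun C h (e' a le_rfl h))
    · exact Or.inr (sub_fun C h (e' a' h le_rfl).symm)
  · obtain ⟨p, hp, a, x, ⟨h1, y, h2, h3⟩, h4, rfl⟩ := (mem_BN C).1 ht
    obtain ⟨_, _, a', x', -, h5, rfl⟩ := (mem_tree C).1 hs
    obtain ⟨e1, e2⟩ := fun_sub C h5 h4 h
    exact (mem_BN C).2 ⟨p, hp, a', x', ⟨e1.trans h1, y, h2, e2.trans (h3.mono e1)⟩, h5, rfl⟩
  · obtain ⟨a, ha', rfl⟩ := (mem_kap C).1 ha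
    clear ha
    have ha := ha'
    obtain ⟨p, hp, h1, y, h2⟩ := C.udense .br (C.two hσ ha) C.top fun q _ => by
      obtain ⟨r, r1, r2, y, hy⟩ := add_idx q.2 (idx_spec σ).1
      obtain ⟨s, s1, s2⟩ := ht_dense a ⟨r, r1⟩
      obtain ⟨w, hw, -⟩ := Le.prom s1 hy
      exact ⟨s, Le.trans s1 r2, by simpa using s2, w, hw⟩
    obtain ⟨q, hq, q1, q2⟩ := C.cof p hp
    obtain ⟨w, hw, -⟩ := Le.prom q1 h2
    have h3 : a ≤ q.1.ht := (show a < p.1.ht by simpa using h1).le.trans q1.ht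
    obtain ⟨_, hx, y, y1, rfl⟩ := C.uwit .brn (C.three q2 hσ ha)
      ⟨_, w, by
        simp only [List.getD_cons_succ, List.getD_cons_zero, dC_cN, dK_ordN]
        exact ⟨h3, w, hw, .refl _ _⟩, rfl⟩
    simp only [List.getD_cons_succ, List.getD_cons_zero, dC_cN, dK_ordN] at hx y1
    exact ⟨_, (mem_BN C).2 ⟨q, hq, a, y, y1, hx, rfl⟩, isFunc_kap C hx⟩
  · obtain ⟨z, hz', rfl⟩ := (mem_kap C).1 hz
    clear hz
    have hz := hz'
    have key : ∀ i, Hit (kap C) (C.val (BN (idx σ))) (C.val (DN i)) b (pi C z) →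
        ∃ q ∈ C.G, Wd σ q (z, i) := by
      rintro i ⟨t, t1, c, c1, c2, c3⟩
      obtain ⟨p, hp, a, x, ⟨h1, y, h2, h3⟩, -, rfl⟩ := (mem_BN C).1 t1
      obtain ⟨b', b1, -, b3, b4⟩ := (mem_funN C).1 c2
      rw [(ZFSet.pair_inj.1 b4).2, mem_DN C b3 hz, h3 b' b1] at c3
      obtain ⟨j, j1, j2⟩ := p.2.just y _ h2 b' (b1.trans_le h1) _ c3
      obtain ⟨d1, d2⟩ := (idx_spec σ).2 j
      exact ⟨⟨_, d1⟩, C.up p hp _ j2, j1 ▸ d2⟩
    have e : ZFSet.pair (pi C z) {∅} ∈ C.val σ ↔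
        ∃ q ∈ C.G, FMem (pairN (ordN z) (natN 1)) σ q := by
      have h1 := C.pair_memN hz (C.natN_mem 1)
      rw [← C.val_mem_iff h1 hσ, C.val_pairN h1, C.val_natN]
      have : nat 1 = {∅} := by
        ext x
        simp [nat]
      rw [this]
      rfl
    rw [e]
    refine ⟨key true, fun h => ?_⟩
    rintro ⟨r, hr, r1⟩
    obtain ⟨q, hq, q1⟩ := key false h
    obtain ⟨s, _, s1, s2⟩ := C.dir q hq r hr
    exact q1 s s1 (r1.mono s2)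

theorem strongKurepa : StrongKurepa C.M (kap C) (tree C) := by
  refine strong_of_labels C.modelZF (kap_mem C) (tree_mem C)
    (C.val_mem_M (ufun C (.dn false) C.nil fun _ => Iff.rfl))
    (C.val_mem_M (ufun C (.dn true) C.nil fun _ => Iff.rfl)) (kap_ord C) (kTree C) (labels C)
    (onto C) fun a ha => ?_
  obtain ⟨a, ha', rfl⟩ := (mem_kap C).1 ha
  clear ha
  have ha := ha'
  obtain ⟨b, h1, h2⟩ := succ_mem C ha
  exact ⟨_, pi_mem_kap C h2, (pi_mem_pi C ha).2 h1⟩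

end model

end Pool.Agent.Lib.MP_f7d510_lc
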